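import Mathlib

/-!
The Hardy space on the circle, boundary functions, coanalytic Toeplitz operators,
weak hypercyclicity.
-/

open MeasureTheory AddCircle Filter Topology Metric
open scoped ENNReal ComplexConjugate

namespace Pool.Agent.H91

/-- The interval length `2π` is positive. -/
instance factTwoPi : Fact (0 < 2 * Real.pi) := ⟨Real.two_pi_pos⟩

/-- The circle `ℝ / 2πℤ`; the point `t` stands for `e^{it}`. -/
abbrev Circ : Type := AddCircle (2 * Real.pi)

/-- Normalised Lebesgue (Haar) measure on the circle. -/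
noncomputable abbrev μc : Measure Circ := haarAddCircle

/-- The Banach space `L^p(𝕋)` of complex functions. -/
def LpCirc (p : ℝ≥0∞) : Type := ↥(Lp ℂ p μc)

noncomputable instance instNormedLpCirc (p : ℝ≥0∞) [Fact (1 ≤ p)] :
    NormedAddCommGroup (LpCirc p) :=
  Lp.instNormedAddCommGroup (E := ℂ) (p := p) (μ := μc)

noncomputable instance instSpaceLpCirc (p : ℝ≥0∞) [Fact (1 ≤ p)] : NormedSpace ℂ (LpCirc p) :=
  Lp.instNormedSpace (𝕜 := ℂ) (E := ℂ) (p := p) (μ := μc)

/-- A representative function of an element of `L^p(𝕋)`. -/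
noncomputable def LpCirc.fn {p : ℝ≥0∞} (F : LpCirc p) : Circ → ℂ :=
  ((show ↥(Lp ℂ p μc) from F : Lp ℂ p μc) : Circ → ℂ)

/-- The Fourier coefficient of index `n` of a function on the circle. -/
noncomputable def fc (f : Circ → ℂ) (n : ℤ) : ℂ := fourierCoeff f n

theorem integrable_Lp (p : ℝ≥0∞) [Fact (1 ≤ p)] (f : Lp ℂ p μc) : Integrable f μc :=
  (Lp.memLp f).integrable Fact.out

theorem hardy_add_mem (p : ℝ≥0∞) [Fact (1 ≤ p)] {f g : LpCirc p}
    (hf : ∀ n : ℤ, n < 0 → fc f.fn n = 0) (hg : ∀ n : ℤ, n < 0 → fc g.fn n = 0) :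
    ∀ n : ℤ, n < 0 → fc (f + g).fn n = 0 := by
  intro n hn
  have h1 := Lp.coeFn_add (show ↥(Lp ℂ p μc) from f) (show ↥(Lp ℂ p μc) from g)
  have h2 := fourierCoeff.add (integrable_Lp p (show ↥(Lp ℂ p μc) from f))
    (integrable_Lp p (show ↥(Lp ℂ p μc) from g))
  have h3 := fourierCoeff_congr_ae h1
  rw [h2] at h3
  have h4 := congrFun h3 n
  rw [Pi.add_apply] at h4
  have h5 := hf n hn
  have h6 := hg n hn
  unfold fc LpCirc.fn at h5 h6 ⊢
  rw [h5, h6, add_zero] at h4
  exact h4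

theorem hardy_zero_mem (p : ℝ≥0∞) [Fact (1 ≤ p)] :
    ∀ n : ℤ, n < 0 → fc (0 : LpCirc p).fn n = 0 := by
  intro n _
  have h := congrFun (fourierCoeff_congr_ae (Lp.coeFn_zero ℂ p μc)) n
  have h2 : fourierCoeff (T := 2 * Real.pi) (0 : Circ → ℂ) n = 0 := by simp [fourierCoeff]
  rw [h2] at h
  exact h

theorem hardy_smul_mem (p : ℝ≥0∞) [Fact (1 ≤ p)] (c : ℂ) {f : LpCirc p}
    (hf : ∀ n : ℤ, n < 0 → fc f.fn n = 0) :
    ∀ n : ℤ, n < 0 → fc (c • f).fn n = 0 := by
  intro n hn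
  have h := congrFun (fourierCoeff_congr_ae (Lp.coeFn_smul c (show ↥(Lp ℂ p μc) from f))) n
  rw [fourierCoeff.const_smul] at h
  have h5 := hf n hn
  unfold fc LpCirc.fn at h5 ⊢
  rw [h5, smul_zero] at h
  exact h

/-- The Hardy space `H^p`, `1 ≤ p ≤ ∞`, identified through boundary values with the closed
subspace of `L^p(𝕋)` of all `F` whose Fourier coefficients of negative index vanish. -/
noncomputable def hardy (p : ℝ≥0∞) [Fact (1 ≤ p)] : Submodule ℂ (LpCirc p) where
  carrier := {F | ∀ n : ℤ, n < 0 → fc F.fn n = 0}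
  add_mem' := hardy_add_mem p
  zero_mem' := hardy_zero_mem p
  smul_mem' := fun c _ => hardy_smul_mem p c

/-- `H^p` as a type. -/
def Hp (p : ℝ≥0∞) [Fact (1 ≤ p)] : Type := ↥(hardy p)

noncomputable instance instNormedHp (p : ℝ≥0∞) [Fact (1 ≤ p)] : NormedAddCommGroup (Hp p) :=
  Submodule.normedAddCommGroup (hardy p)

noncomputable instance instSpaceHp (p : ℝ≥0∞) [Fact (1 ≤ p)] : NormedSpace ℂ (Hp p) :=
  Submodule.normedSpace (hardy p)

/-- A representative (boundary) function of an element of `H^p`. -/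
noncomputable def Hp.fn {p : ℝ≥0∞} [Fact (1 ≤ p)] (F : Hp p) : Circ → ℂ :=
  ((show ↥(hardy p) from F : hardy p) : LpCirc p).fn

/-- `g ∈ H^∞(𝔻)`: `g` is a bounded holomorphic function on the open unit disc. -/
def IsHInfty (g : ℂ → ℂ) : Prop :=
  DifferentiableOn ℂ g (ball 0 1) ∧ ∃ C : ℝ, ∀ z ∈ ball (0 : ℂ) 1, ‖g z‖ ≤ C

/-- `gb` is the boundary function of `g` on the circle: the radial limit of `g` at `e^{it}` is
`gb t` for almost every `t`. -/
def IsBoundaryFunction (g : ℂ → ℂ) (gb : Circ → ℂ) : Prop :=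
  ∀ᵐ t ∂μc, Tendsto (fun r : ℝ => g ((r : ℂ) * (toCircle t : ℂ))) (𝓝[<] 1) (𝓝 (gb t))

/-- `T` is the coanalytic Toeplitz operator `T_g^* f = P_+(conj(g) f)` on `H^p`: for every
`f ∈ H^p`, `T f` is the function in `H^p` whose Fourier coefficient of index `n` is that of
`conj(g) f`, for every `n ≥ 0`. -/
def IsCoanalyticToeplitz (g : ℂ → ℂ) (p : ℝ≥0∞) [Fact (1 ≤ p)] (T : Hp p →L[ℂ] Hp p) : Prop :=
  ∃ gb : Circ → ℂ, IsBoundaryFunction g gb ∧
    ∀ (f : Hp p) (n : ℤ), 0 ≤ n → fc (T f).fn n = fc (fun t => conj (gb t) * f.fn t) n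

/-- A set is weakly dense if it is dense for the weak topology. -/
def IsWeaklyDense {X : Type*} [NormedAddCommGroup X] [NormedSpace ℂ X] (S : Set X) : Prop :=
  Dense (toWeakSpace ℂ X '' S)

/-- A bounded operator is weakly hypercyclic if some orbit is dense for the weak topology. -/
def IsWeaklyHypercyclic {X : Type*} [NormedAddCommGroup X] [NormedSpace ℂ X]
    (T : X →L[ℂ] X) : Prop :=
  ∃ x : X, IsWeaklyDense (Set.range fun n : ℕ => T^[n] x)

end Pool.Agent.H91
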