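import Mathlib
import Pool.Agent.H91.HardyDefs

/-!
Fourier analysis on the circle: coefficient functionals on `L^p`, the Hardy space `H^p`
(as a closed subspace of `L^p`), the Riesz projection on `L^4`.
-/

open MeasureTheory AddCircle Filter Topology Submodule
open scoped ENNReal ComplexConjugate Pointwise

namespace Pool.Agent.H91

noncomputable section

/-- `1 ≤ 4` in the extended nonnegative reals. -/
instance factOneLeFour : Fact ((1 : ℝ≥0∞) ≤ 4) := ⟨by norm_num⟩

section Coeff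

variable (p : ℝ≥0∞) [Fact (1 ≤ p)]

theorem integral_norm_le (f : Lp ℂ p μc) : ∫ t, ‖f t‖ ∂μc ≤ ‖f‖ := by
  have h1 : eLpNorm f 1 μc ≤ eLpNorm f p μc :=
    eLpNorm_le_eLpNorm_of_exponent_le Fact.out (Lp.aestronglyMeasurable f)
  have h2 : ∫ t, ‖f t‖ ∂μc = (eLpNorm f 1 μc).toReal := by
    rw [eLpNorm_one_eq_lintegral_enorm, integral_norm_eq_lintegral_enorm (Lp.aestronglyMeasurable f)]
  rw [h2, Lp.norm_def]
  exact ENNReal.toReal_mono (Lp.eLpNorm_ne_top f) h1

/-- The `n`-th Fourier coefficient as a continuous linear functional on `L^p`. -/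
def coeffL (n : ℤ) : Lp ℂ p μc →L[ℂ] ℂ :=
  LinearMap.mkContinuous
    { toFun := fun f => fourierCoeff (T := 2 * Real.pi) f n
      map_add' := fun f g => by
        rw [fourierCoeff_congr_ae (Lp.coeFn_add f g),
          fourierCoeff.add (integrable_Lp p f) (integrable_Lp p g)]
        rfl
      map_smul' := fun c f => by
        rw [fourierCoeff_congr_ae (Lp.coeFn_smul c f), fourierCoeff.const_smul]
        rfl } 1
    (fun f => by
      simp only [LinearMap.coe_mk, AddHom.coe_mk, fourierCoeff, one_mul]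
      refine (norm_integral_le_integral_norm _).trans (le_trans ?_ (integral_norm_le p f))
      refine le_of_eq (integral_congr_ae (ae_of_all _ fun t => ?_))
      simp only [norm_smul]
      rw [fourier_apply, Circle.norm_coe, one_mul])

theorem coeffL_apply (n : ℤ) (f : Lp ℂ p μc) :
    coeffL p n f = fourierCoeff (T := 2 * Real.pi) f n := rfl

theorem integral_fourier {n : ℤ} (hn : n ≠ 0) : ∫ t : Circ, fourier n t ∂μc = 0 :=
  integral_eq_zero_of_add_right_eq_neg (μ := μc) (fourier_add_half_inv_index hn Real.two_pi_pos)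

theorem integral_fourier_zero : ∫ t : Circ, fourier 0 t ∂μc = 1 := by
  have : ∀ t : Circ, fourier 0 t = 1 := fun t => fourier_zero
  simp_rw [this]
  simp

theorem coeffL_fourierLp (n m : ℤ) : coeffL p n (fourierLp p m) = if m = n then 1 else 0 := by
  rw [coeffL_apply, fourierCoeff_congr_ae (coeFn_fourierLp p m)]
  unfold fourierCoeff
  have : ∀ t : Circ, fourier (-n) t • fourier m t = fourier (m - n) t := by
    intro t
    rw [smul_eq_mul, ← fourier_add]
    congr 2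
    ring
  simp_rw [this]
  split_ifs with h
  · subst h
    rw [sub_self, integral_fourier_zero]
  · exact integral_fourier (sub_ne_zero.mpr h)

/-- Uniqueness of Fourier coefficients, in `L^4`. -/
theorem Lp4_ext {f g : Lp ℂ 4 μc} (h : ∀ n, coeffL 4 n f = coeffL 4 n g) : f = g := by
  have hf2 : MemLp (f - g : Lp ℂ 4 μc) 2 μc :=
    (Lp.memLp (f - g)).mono_exponent (by norm_num)
  have h0 : hf2.toLp = 0 := by
    have h1 : fourierBasis.repr hf2.toLp = 0 := by
      ext n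
      rw [fourierBasis_repr]
      rw [fourierCoeff_congr_ae (MemLp.coeFn_toLp hf2)]
      have : coeffL 4 n (f - g) = 0 := by rw [map_sub, h n, sub_self]
      rw [coeffL_apply] at this
      rw [this]
      rfl
    exact fourierBasis.repr.map_eq_zero_iff.mp h1
  have h2 : (f - g : Lp ℂ 4 μc) =ᵐ[μc] 0 := by
    have h3 := MemLp.coeFn_toLp hf2
    rw [h0] at h3
    exact h3.symm.trans (Lp.coeFn_zero _ _ _)
  have h4 : f - g = 0 := by
    apply Lp.ext
    exact h2.trans (Lp.coeFn_zero _ _ _).symm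
  exact sub_eq_zero.mp h4

end Coeff

section Spans

/-- Trigonometric polynomials with frequencies in `s`. -/
def tspan (s : Set ℤ) : Submodule ℂ C(Circ, ℂ) := span ℂ ((fun n => fourier n) '' s)

theorem fourier_mem_tspan {s : Set ℤ} {n : ℤ} (hn : n ∈ s) :
    (fourier n : C(Circ, ℂ)) ∈ tspan s := subset_span ⟨n, hn, rfl⟩

theorem tspan_mono {s t : Set ℤ} (h : s ⊆ t) : tspan s ≤ tspan t :=
  span_mono (Set.image_mono h)

theorem mul_mem_tspan {s t : Set ℤ} {f g : C(Circ, ℂ)} (hf : f ∈ tspan s) (hg : g ∈ tspan t) :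
    f * g ∈ tspan (s + t) := by
  have h := Submodule.mul_mem_mul hf hg
  unfold tspan at h ⊢
  rw [Submodule.span_mul_span] at h
  refine span_mono ?_ h
  rintro _ ⟨_, ⟨m, hm, rfl⟩, _, ⟨n, hn, rfl⟩, rfl⟩
  refine ⟨m + n, Set.add_mem_add hm hn, ?_⟩
  ext t
  exact fourier_add

theorem star_mem_tspan {s : Set ℤ} {f : C(Circ, ℂ)} (hf : f ∈ tspan s) :
    star f ∈ tspan (-s) := by
  unfold tspan at hf
  induction hf using Submodule.span_induction with
  | mem x hx =>
    obtain ⟨n, hn, rfl⟩ := hx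
    have : star (fourier n : C(Circ, ℂ)) = fourier (-n) := by
      ext t
      exact fourier_neg.symm
    simp only [this]
    exact fourier_mem_tspan (by simpa using hn)
  | zero => simp
  | add x y _ _ hx hy => rw [star_add]; exact add_mem hx hy
  | smul c x _ hx => rw [star_smul]; exact smul_mem _ _ hx

theorem integral_eq_zero_of_mem_tspan {s : Set ℤ} (hs : (0 : ℤ) ∉ s) {f : C(Circ, ℂ)}
    (hf : f ∈ tspan s) : ∫ t, f t ∂μc = 0 := by
  have hint : ∀ f : C(Circ, ℂ), Integrable f μc := fun f =>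
    f.continuous.integrable_of_hasCompactSupport (HasCompactSupport.of_compactSpace _)
  unfold tspan at hf
  induction hf using Submodule.span_induction with
  | mem x hx =>
    obtain ⟨n, hn, rfl⟩ := hx
    exact integral_fourier (fun h => hs (h ▸ hn))
  | zero => simp
  | add x y _ _ hx hy =>
    simp only [ContinuousMap.add_apply]
    rw [integral_add (hint x) (hint y), hx, hy, add_zero]
  | smul c x _ hx =>
    simp only [ContinuousMap.smul_apply]
    rw [integral_smul, hx, smul_zero]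

end Spans

section RieszProj

theorem integrable_cont (f : Circ → ℂ) (hf : Continuous f) : Integrable f μc :=
  hf.integrable_of_hasCompactSupport (HasCompactSupport.of_compactSpace _)

theorem integrable_cont_real (f : Circ → ℝ) (hf : Continuous f) : Integrable f μc :=
  hf.integrable_of_hasCompactSupport (HasCompactSupport.of_compactSpace _)

theorem half_riesz {a b : C(Circ, ℂ)}
    (h0 : ∫ t, (a t) ^ 2 * (conj (b t)) ^ 2 ∂μc = 0) :
    ∫ t, ‖a t‖ ^ 4 ∂μc ≤ ∫ t, (‖a t‖ ^ 3 * ‖a t + b t‖ + ‖a t‖ ^ 2 * ‖b t‖ * ‖a t + b t‖) ∂μc := by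
  have hid : ∀ t, ((‖a t‖ ^ 4 : ℝ) : ℂ) = (a t) ^ 2 * conj (a t) * conj (a t + b t)
      - (a t) ^ 2 * conj (b t) * conj (a t + b t) + (a t) ^ 2 * (conj (b t)) ^ 2 := by
    intro t
    have h1 : ((‖a t‖ ^ 4 : ℝ) : ℂ) = (a t) ^ 2 * (conj (a t)) ^ 2 := by
      have : (a t) * conj (a t) = ((‖a t‖ ^ 2 : ℝ) : ℂ) := by
        rw [Complex.mul_conj, Complex.normSq_eq_norm_sq]
      calc ((‖a t‖ ^ 4 : ℝ) : ℂ) = ((‖a t‖ ^ 2 : ℝ) : ℂ) ^ 2 := by push_cast; ring
        _ = _ := by rw [← this]; ring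
    rw [h1, map_add]
    ring
  have hint : ((∫ t, ‖a t‖ ^ 4 ∂μc : ℝ) : ℂ) =
      ∫ t, ((a t) ^ 2 * conj (a t) * conj (a t + b t)
      - (a t) ^ 2 * conj (b t) * conj (a t + b t)) ∂μc := by
    rw [← integral_complex_ofReal]
    simp_rw [hid]
    rw [integral_add, h0, add_zero]
    · apply integrable_cont; fun_prop
    · apply integrable_cont; fun_prop
  have hnn : 0 ≤ ∫ t, ‖a t‖ ^ 4 ∂μc := integral_nonneg fun t => by positivity
  have hnorm : ∫ t, ‖a t‖ ^ 4 ∂μc = ‖((∫ t, ‖a t‖ ^ 4 ∂μc : ℝ) : ℂ)‖ := by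
    rw [Complex.norm_real, Real.norm_of_nonneg hnn]
  rw [hnorm, hint]
  refine norm_integral_le_of_norm_le ?_ (ae_of_all _ fun t => ?_)
  · apply integrable_cont_real; fun_prop
  · refine (norm_sub_le _ _).trans ?_
    simp only [norm_mul, norm_pow, RCLike.norm_conj]
    exact le_of_eq (by ring)

theorem riesz_pointwise (x y q : ℝ) (hx : 0 ≤ x) (hy : 0 ≤ y) (hq : 0 ≤ q) :
    (x ^ 3 * q + x ^ 2 * y * q) + (y ^ 3 * q + y ^ 2 * x * q) ≤
      (1 / 2) * (x ^ 4 + y ^ 4) + 27 * q ^ 4 := by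
  have h1 : x ^ 2 * y + y ^ 2 * x ≤ x ^ 3 + y ^ 3 := by
    nlinarith [mul_nonneg (add_nonneg hx hy) (sq_nonneg (x - y))]
  have h2 : ∀ a : ℝ, 0 ≤ a → 2 * q * a ^ 3 ≤ (1 / 2) * a ^ 4 + (27 / 2) * q ^ 4 := by
    intro a _
    have : 0 ≤ (a - 3 * q) ^ 2 * (a ^ 2 + 2 * a * q + 3 * q ^ 2) := by positivity
    nlinarith
  have h3 := h2 x hx
  have h4 := h2 y hy
  have h5 := mul_le_mul_of_nonneg_right h1 hq
  nlinarith

/-- The key inequality behind the boundedness of the Riesz projection on `L^4`. -/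
theorem riesz_ineq {a b : C(Circ, ℂ)} (ha : a ∈ tspan {n | 0 ≤ n}) (hb : b ∈ tspan {n | n < 0}) :
    ∫ t, ‖a t‖ ^ 4 ∂μc ≤ 54 * ∫ t, ‖a t + b t‖ ^ 4 ∂μc := by
  have hab : ∫ t, (a t) ^ 2 * (conj (b t)) ^ 2 ∂μc = 0 := by
    have h1 := mul_mem_tspan (mul_mem_tspan ha ha)
      (mul_mem_tspan (star_mem_tspan hb) (star_mem_tspan hb))
    have h2 := integral_eq_zero_of_mem_tspan (s := ({n : ℤ | 0 ≤ n} + {n | 0 ≤ n}) +
      (-{n : ℤ | n < 0} + -{n | n < 0})) ?_ h1
    · rw [← h2]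
      refine integral_congr_ae (ae_of_all _ fun t => ?_)
      simp only [ContinuousMap.mul_apply, ContinuousMap.star_apply]
      change a t ^ 2 * star (b t) ^ 2 = _
      ring
    · rintro ⟨x, ⟨x1, hx1, x2, hx2, rfl⟩, y, ⟨y1, hy1, y2, hy2, rfl⟩, hxy⟩
      simp only [Set.mem_ofPred_eq, Set.mem_neg] at hx1 hx2 hy1 hy2 hxy
      omega
  have hba : ∫ t, (b t) ^ 2 * (conj (a t)) ^ 2 ∂μc = 0 := by
    have : ∫ t, (b t) ^ 2 * (conj (a t)) ^ 2 ∂μc = conj (∫ t, (a t) ^ 2 * (conj (b t)) ^ 2 ∂μc) := by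
      rw [← integral_conj]
      refine integral_congr_ae (ae_of_all _ fun t => ?_)
      simp only [map_mul, map_pow, Complex.conj_conj]
      ring
    rw [this, hab, map_zero]
  have h1 := half_riesz hab
  have h2 := half_riesz hba
  have h3 : ∫ t, ‖a t‖ ^ 4 ∂μc + ∫ t, ‖b t‖ ^ 4 ∂μc ≤
      (1 / 2) * (∫ t, ‖a t‖ ^ 4 ∂μc + ∫ t, ‖b t‖ ^ 4 ∂μc) + 27 * ∫ t, ‖a t + b t‖ ^ 4 ∂μc := by
    refine (add_le_add h1 h2).trans ?_
    rw [← integral_add, ← integral_add, ← integral_const_mul, ← integral_const_mul, ← integral_add]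
    · refine integral_mono ?_ ?_ fun t => ?_
      · apply integrable_cont_real; fun_prop
      · apply integrable_cont_real; fun_prop
      · have := riesz_pointwise ‖a t‖ ‖b t‖ ‖a t + b t‖ (norm_nonneg _) (norm_nonneg _)
          (norm_nonneg _)
        simp only
        rw [add_comm (b t) (a t)]
        exact this
    all_goals (apply integrable_cont_real; fun_prop)
  have h4 : 0 ≤ ∫ t, ‖b t‖ ^ 4 ∂μc := integral_nonneg fun t => by positivity
  linarith

theorem norm4 (f : Lp ℂ 4 μc) : ‖f‖ ^ 4 = ∫ t, ‖f t‖ ^ 4 ∂μc := by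
  have h1 := (Lp.memLp f).eLpNorm_eq_integral_rpow_norm (by norm_num) (by norm_num)
  have h2 : 0 ≤ ∫ t, ‖f t‖ ^ 4 ∂μc := integral_nonneg fun t => by positivity
  have h3 : (ENNReal.toReal 4) = 4 := by norm_num
  have h4 : ∀ t, ‖f t‖ ^ (ENNReal.toReal 4) = ‖f t‖ ^ 4 := fun t => by
    rw [h3]; exact_mod_cast Real.rpow_natCast _ 4
  simp_rw [h4] at h1
  rw [Lp.norm_def, h1, ENNReal.toReal_ofReal (by positivity), h3]
  rw [← Real.rpow_natCast, ← Real.rpow_mul h2]
  norm_num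

/-- Trigonometric polynomial with coefficients `a`, as an element of `L^4`. -/
def tL : (ℤ →₀ ℂ) →ₗ[ℂ] Lp ℂ 4 μc := Finsupp.linearCombination ℂ (fourierLp (T := 2 * Real.pi) 4)

/-- Trigonometric polynomial with coefficients `a`, as a continuous function. -/
def tC : (ℤ →₀ ℂ) →ₗ[ℂ] C(Circ, ℂ) := Finsupp.linearCombination ℂ (fun n => fourier n)

theorem tL_eq (a : ℤ →₀ ℂ) :
    tL a = ContinuousMap.toLp (E := ℂ) 4 μc ℂ (tC a) := by
  unfold tL tC
  rw [Finsupp.linearCombination_apply, Finsupp.linearCombination_apply, Finsupp.sum, Finsupp.sum,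
    map_sum]
  refine Finset.sum_congr rfl fun n _ => ?_
  rw [map_smul]

theorem norm_tL (a : ℤ →₀ ℂ) : ‖tL a‖ ^ 4 = ∫ t, ‖tC a t‖ ^ 4 ∂μc := by
  rw [norm4]
  refine integral_congr_ae ?_
  have := ContinuousMap.coeFn_toLp (p := 4) (𝕜 := ℂ) μc (tC a)
  rw [← tL_eq] at this
  filter_upwards [this] with t ht
  rw [ht]

theorem denseRange_tL : DenseRange tL := by
  have h := span_fourierLp_closure_eq_top (T := 2 * Real.pi) (p := 4) (by norm_num)
  rw [← Finsupp.range_linearCombination] at h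
  have h2 : Dense ((LinearMap.range tL : Submodule ℂ (Lp ℂ 4 μc)) : Set (Lp ℂ 4 μc)) :=
    Submodule.dense_iff_topologicalClosure_eq_top.mpr h
  rw [LinearMap.coe_range] at h2
  exact h2

theorem tC_mem (a : ℤ →₀ ℂ) (s : Set ℤ) (h : ∀ n ∈ a.support, n ∈ s) : tC a ∈ tspan s := by
  unfold tC
  rw [Finsupp.linearCombination_apply]
  exact Submodule.sum_mem _ fun n hn => Submodule.smul_mem _ _ (fourier_mem_tspan (h n hn))

/-- The analytic part of a finitely supported coefficient sequence. -/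
def filt : (ℤ →₀ ℂ) →ₗ[ℂ] (ℤ →₀ ℂ) where
  toFun a := a.filter (fun n => 0 ≤ n)
  map_add' _ _ := Finsupp.filter_add
  map_smul' _ _ := Finsupp.filter_smul

theorem norm_tL_filt_le (a : ℤ →₀ ℂ) : ‖tL (filt a)‖ ≤ 3 * ‖tL a‖ := by
  have h1 : tC (filt a) ∈ tspan {n | 0 ≤ n} := tC_mem _ _ fun n hn => by
    simp only [filt, LinearMap.coe_mk, AddHom.coe_mk, Finsupp.support_filter,
      Finset.mem_filter] at hn
    exact hn.2
  have h2 : tC (a.filter (fun n => ¬ (0 ≤ n))) ∈ tspan {n | n < 0} := tC_mem _ _ fun n hn => by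
    simp only [Finsupp.support_filter, Finset.mem_filter] at hn
    simpa using hn.2
  have h3 : tC (filt a) + tC (a.filter (fun n => ¬ (0 ≤ n))) = tC a := by
    rw [← map_add]
    congr 1
    exact Finsupp.filter_add_filter_not a _
  have h4 := riesz_ineq h1 h2
  have h5 : ∫ t, ‖tC (filt a) t + tC (a.filter (fun n => ¬ (0 ≤ n))) t‖ ^ 4 ∂μc =
      ∫ t, ‖tC a t‖ ^ 4 ∂μc := by
    rw [← h3]; rfl
  rw [h5, ← norm_tL, ← norm_tL] at h4
  have h6 : ‖tL (filt a)‖ ^ 4 ≤ (3 * ‖tL a‖) ^ 4 := by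
    rw [mul_pow]
    nlinarith [pow_nonneg (norm_nonneg (tL a)) 4]
  exact le_of_pow_le_pow_left₀ (by norm_num) (by positivity) h6

/-- The Riesz projection on `L^4`. -/
def Pplus : Lp ℂ 4 μc →L[ℂ] Lp ℂ 4 μc := (tL ∘ₗ filt).extendOfNorm tL

theorem Pplus_tL (a : ℤ →₀ ℂ) : Pplus (tL a) = tL (filt a) :=
  LinearMap.extendOfNorm_eq denseRange_tL ⟨3, norm_tL_filt_le⟩ a

theorem norm_Pplus_le (f : Lp ℂ 4 μc) : ‖Pplus f‖ ≤ 3 * ‖f‖ :=
  LinearMap.norm_extendOfNorm_apply_le denseRange_tL 3 norm_tL_filt_le f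

theorem coeffL_tL (a : ℤ →₀ ℂ) (n : ℤ) : coeffL 4 n (tL a) = a n := by
  unfold tL
  rw [Finsupp.linearCombination_apply, Finsupp.sum, map_sum]
  simp only [map_smul, coeffL_fourierLp, smul_eq_mul, mul_ite, mul_one, mul_zero]
  rw [Finset.sum_ite_eq']
  split_ifs with h
  · rfl
  · simpa using (Finsupp.notMem_support_iff.mp h).symm

theorem coeffL_Pplus (f : Lp ℂ 4 μc) (n : ℤ) :
    coeffL 4 n (Pplus f) = if 0 ≤ n then coeffL 4 n f else 0 := by
  have hclosed : IsClosed {f : Lp ℂ 4 μc | coeffL 4 n (Pplus f) = if 0 ≤ n then coeffL 4 n f else 0} := by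
    apply isClosed_eq
    · fun_prop
    · split_ifs
      · fun_prop
      · exact continuous_const
  refine denseRange_tL.induction_on (p := fun f => coeffL 4 n (Pplus f) =
    if 0 ≤ n then coeffL 4 n f else 0) f hclosed ?_
  intro a
  rw [Pplus_tL, coeffL_tL, coeffL_tL]
  simp only [filt, LinearMap.coe_mk, AddHom.coe_mk, Finsupp.filter_apply]

end RieszProj

end

end Pool.Agent.H91
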