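import Mathlib
import Pool.Agent.H91.Circle

/-!
Cauchy's theorem for boundary values of bounded holomorphic functions on the disc.
-/

open MeasureTheory AddCircle Filter Topology Metric
open scoped ENNReal ComplexConjugate

namespace Pool.Agent.H91

noncomputable section

/-- The point `e^{it}` of the unit circle in `ℂ`. -/
def ζ (t : Circ) : ℂ := (toCircle t : ℂ)

theorem continuous_ζ : Continuous ζ := continuous_induced_dom.comp continuous_toCircle

@[simp] theorem norm_ζ (t : Circ) : ‖ζ t‖ = 1 := Circle.norm_coe _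

theorem ζ_ne_zero (t : Circ) : ζ t ≠ 0 := by
  intro h
  have := norm_ζ t
  rw [h] at this
  simp at this

theorem ζ_coe (x : ℝ) : ζ (x : Circ) = Complex.exp (x * Complex.I) := by
  unfold ζ
  rw [toCircle_apply_mk, Circle.coe_exp]
  congr 2
  push_cast
  have : (Real.pi : ℂ) ≠ 0 := by exact_mod_cast Real.pi_ne_zero
  field_simp

theorem fourier_eq (n : ℤ) (t : Circ) : (fourier n t : ℂ) = ζ t ^ n := by
  unfold ζ
  rw [fourier_apply, toCircle_zsmul, Circle.coe_zpow]

/-- Integration over the circle as a circle average. -/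
theorem integral_eq_circleAverage (f : ℂ → ℂ) (r : ℝ) :
    ∫ t, f (r * ζ t) ∂μc = Real.circleAverage f 0 r := by
  rw [integral_haarAddCircle, Real.circleAverage_def,
    ← AddCircle.intervalIntegral_preimage (2 * Real.pi) 0 (fun t => f (r * ζ t)), zero_add]
  congr 1
  refine intervalIntegral.integral_congr fun x _ => ?_
  simp only [ζ_coe, circleMap, zero_add]

/-- Moving circles: for `F` holomorphic in the disc, `r^m ∫ F(r ζ) ζ^m` does not depend on `r`. -/
theorem integral_move {F : ℂ → ℂ} (hF : DifferentiableOn ℂ F (ball 0 1)) (m : ℤ) {r R : ℝ}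
    (hr : 0 < r) (hrR : r ≤ R) (hR : R < 1) :
    (R : ℂ) ^ m * ∫ t, F (R * ζ t) * ζ t ^ m ∂μc = (r : ℂ) ^ m * ∫ t, F (r * ζ t) * ζ t ^ m ∂μc := by
  have hR0 : 0 < R := hr.trans_le hrR
  have h1 : ∀ s : ℝ, 0 < s → (s : ℂ) ^ m * ∫ t, F (s * ζ t) * ζ t ^ m ∂μc =
      Real.circleAverage (fun z => F z * z ^ m) 0 s := by
    intro s hs
    rw [← integral_eq_circleAverage (fun z => F z * z ^ m) s, ← integral_const_mul]
    refine integral_congr_ae (ae_of_all _ fun t => ?_)
    simp only [mul_zpow]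
    ring
  rw [h1 R hR0, h1 r hr, Real.circleAverage_eq_circleIntegral hR0.ne',
    Real.circleAverage_eq_circleIntegral hr.ne']
  congr 1
  have hd : ∀ z ∈ ball (0 : ℂ) 1 \ {0}, DifferentiableAt ℂ (fun z => F z * z ^ m) z := by
    intro z hz
    have h2 : DifferentiableAt ℂ F z := hF.differentiableAt (isOpen_ball.mem_nhds hz.1)
    have h3 : DifferentiableAt ℂ (fun z : ℂ => z ^ m) z :=
      differentiableAt_zpow.mpr (Or.inl hz.2)
    exact h2.mul h3
  apply Complex.circleIntegral_sub_center_inv_smul_eq_of_differentiable_on_annulus_off_countable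
    hr hrR Set.countable_empty
  · intro z hz
    refine (hd z ⟨?_, ?_⟩).continuousAt.continuousWithinAt
    · have := hz.1
      rw [mem_closedBall_zero_iff] at this
      rw [mem_ball_zero_iff]
      linarith
    · intro h0
      rw [Set.mem_singleton_iff] at h0
      apply hz.2
      rw [h0]
      exact mem_ball_self hr
  · intro z hz
    refine hd z ⟨?_, ?_⟩
    · have := hz.1.1
      rw [mem_ball_zero_iff] at this ⊢
      linarith
    · intro h0
      rw [Set.mem_singleton_iff] at h0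
      apply hz.1.2
      rw [h0]
      exact mem_closedBall_self hr.le

/-- Cauchy's theorem with boundary values: for a bounded holomorphic function on the disc with
radial boundary values. -/
theorem integral_boundary {F : ℂ → ℂ} (hF : DifferentiableOn ℂ F (ball 0 1)) (B : ℝ)
    (hB : ∀ z ∈ ball (0 : ℂ) 1, ‖F z‖ ≤ B) (Fb : Circ → ℂ)
    (hb : ∀ᵐ t ∂μc, Tendsto (fun s : ℝ => F (s * ζ t)) (𝓝[<] 1) (𝓝 (Fb t)))
    (m : ℤ) {r : ℝ} (hr : 0 < r) (hr1 : r < 1) :
    ∫ t, Fb t * ζ t ^ m ∂μc = (r : ℂ) ^ m * ∫ t, F (r * ζ t) * ζ t ^ m ∂μc := by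
  have hmem : ∀ᶠ s : ℝ in 𝓝[<] 1, r ≤ s ∧ s < 1 := by
    have h1 : ∀ᶠ s : ℝ in 𝓝[<] (1 : ℝ), s ∈ Set.Ioo r 1 := Ioo_mem_nhdsLT hr1
    filter_upwards [h1] with s hs
    exact ⟨hs.1.le, hs.2⟩
  -- left side as a limit
  have hlim1 : Tendsto (fun s : ℝ => ∫ t, F (s * ζ t) * ζ t ^ m ∂μc) (𝓝[<] 1)
      (𝓝 (∫ t, Fb t * ζ t ^ m ∂μc)) := by
    refine tendsto_integral_filter_of_dominated_convergence (fun _ => B) ?_ ?_
      (integrable_const B) ?_
    · filter_upwards [hmem] with s hs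
      refine Continuous.aestronglyMeasurable ?_
      have hc : Continuous fun t => F (s * ζ t) := by
        refine hF.continuousOn.comp_continuous (continuous_const.mul continuous_ζ) fun t => ?_
        rw [mem_ball_zero_iff, norm_mul, norm_ζ, Complex.norm_real, mul_one,
          Real.norm_of_nonneg (hr.le.trans hs.1)]
        exact hs.2
      exact hc.mul (continuous_ζ.zpow₀ m fun t => Or.inl (ζ_ne_zero t))
    · filter_upwards [hmem] with s hs
      refine ae_of_all _ fun t => ?_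
      rw [norm_mul, norm_zpow, norm_ζ, one_zpow, mul_one]
      refine hB _ ?_
      rw [mem_ball_zero_iff, norm_mul, norm_ζ, Complex.norm_real, mul_one,
        Real.norm_of_nonneg (hr.le.trans hs.1)]
      exact hs.2
    · filter_upwards [hb] with t ht
      exact ht.mul_const _
  have hlim2 : Tendsto (fun s : ℝ => (s : ℂ) ^ m * ∫ t, F (s * ζ t) * ζ t ^ m ∂μc) (𝓝[<] 1)
      (𝓝 ((1 : ℂ) ^ m * ∫ t, Fb t * ζ t ^ m ∂μc)) := by
    refine Tendsto.mul ?_ hlim1
    have hc : ContinuousAt (fun s : ℝ => (s : ℂ) ^ m) 1 := by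
      refine ContinuousAt.zpow₀ Complex.continuous_ofReal.continuousAt m (Or.inl ?_)
      simp
    have := hc.tendsto.mono_left (nhdsWithin_le_nhds (s := Set.Iio (1:ℝ)))
    simpa using this
  rw [one_zpow, one_mul] at hlim2
  have hconst : Tendsto (fun s : ℝ => (s : ℂ) ^ m * ∫ t, F (s * ζ t) * ζ t ^ m ∂μc) (𝓝[<] 1)
      (𝓝 ((r : ℂ) ^ m * ∫ t, F (r * ζ t) * ζ t ^ m ∂μc)) := by
    refine Tendsto.congr' ?_ tendsto_const_nhds
    filter_upwards [hmem] with s hs
    exact (integral_move hF m hr hs.1 hs.2).symm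
  exact tendsto_nhds_unique hlim2 hconst

theorem integral_boundary_pos {F : ℂ → ℂ} (hF : DifferentiableOn ℂ F (ball 0 1)) (B : ℝ)
    (hB : ∀ z ∈ ball (0 : ℂ) 1, ‖F z‖ ≤ B) (Fb : Circ → ℂ)
    (hb : ∀ᵐ t ∂μc, Tendsto (fun s : ℝ => F (s * ζ t)) (𝓝[<] 1) (𝓝 (Fb t)))
    (m : ℕ) : ∫ t, Fb t * ζ t ^ (m : ℤ) ∂μc = if m = 0 then F 0 else 0 := by
  rw [integral_boundary hF B hB Fb hb (m : ℤ) (r := 1 / 2) (by norm_num) (by norm_num)]
  rw [← integral_const_mul]
  have h1 : ∫ t, (((1 / 2 : ℝ) : ℂ)) ^ (m : ℤ) * (F (((1 / 2 : ℝ) : ℂ) * ζ t) * ζ t ^ (m : ℤ)) ∂μc =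
      Real.circleAverage (fun z => F z * z ^ m) 0 (1 / 2) := by
    rw [← integral_eq_circleAverage (fun z => F z * z ^ m) (1 / 2)]
    refine integral_congr_ae (ae_of_all _ fun t => ?_)
    simp only [zpow_natCast, mul_pow]
    ring
  rw [h1]
  have h2 : DiffContOnCl ℂ (fun z => F z * z ^ m) (ball 0 |(1 / 2 : ℝ)|) := by
    have hsub : closedBall (0 : ℂ) |(1 / 2 : ℝ)| ⊆ ball 0 1 := by
      refine closedBall_subset_ball ?_
      rw [abs_of_pos (by norm_num)]
      norm_num
    have h3 : DifferentiableOn ℂ (fun z => F z * z ^ m) (closedBall 0 |(1 / 2 : ℝ)|) :=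
      (hF.mono hsub).mul (differentiable_id.pow m).differentiableOn
    exact h3.diffContOnCl_ball (subset_refl _)
  rw [h2.circleAverage]
  split_ifs with h
  · subst h; simp
  · simp [h]

end

end Pool.Agent.H91
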