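import Mathlib
import Pool.Agent.H91.Boundary

/-!
The bounded holomorphic function `g(z) = exp(1/2 + (i/π) log((1+z)/(1-z)))`.
-/

open MeasureTheory AddCircle Filter Topology Metric
open scoped ENNReal ComplexConjugate

namespace Pool.Agent.H91

noncomputable section

/-- The symbol `g(z) = exp(1/2 + (i/π) log((1+z)/(1-z)))`. -/
def gfun (z : ℂ) : ℂ :=
  Complex.exp (1 / 2 + Complex.I / Real.pi * Complex.log ((1 + z) / (1 - z)))

theorem gfun_ne_zero (z : ℂ) : gfun z ≠ 0 := Complex.exp_ne_zero _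

theorem norm_gfun (z : ℂ) : ‖gfun z‖ = Real.exp (1 / 2 - ((1 + z) / (1 - z)).arg / Real.pi) := by
  unfold gfun
  rw [Complex.norm_exp]
  congr 1
  have : (Complex.I / Real.pi * Complex.log ((1 + z) / (1 - z))).re =
      - ((1 + z) / (1 - z)).arg / Real.pi := by
    rw [div_mul_eq_mul_div, Complex.div_ofReal_re, Complex.I_mul_re, Complex.log_im]
  rw [Complex.add_re, this]
  norm_num
  ring

theorem mobius_re (z : ℂ) : ((1 + z) / (1 - z)).re = (1 - ‖z‖ ^ 2) / Complex.normSq (1 - z) := by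
  rw [Complex.div_re, ← Complex.normSq_eq_norm_sq]
  simp only [Complex.add_re, Complex.one_re, Complex.sub_re, Complex.add_im, Complex.one_im,
    Complex.sub_im, Complex.normSq_apply]
  ring

theorem mobius_im (z : ℂ) : ((1 + z) / (1 - z)).im = 2 * z.im / Complex.normSq (1 - z) := by
  rw [Complex.div_im]
  simp only [Complex.add_re, Complex.one_re, Complex.sub_re, Complex.add_im, Complex.one_im,
    Complex.sub_im, Complex.normSq_apply]
  ring

theorem one_sub_ne_zero_of_mem_ball {z : ℂ} (hz : z ∈ ball (0 : ℂ) 1) : 1 - z ≠ 0 := by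
  intro h
  have : z = 1 := (sub_eq_zero.mp h).symm
  rw [this, mem_ball_zero_iff] at hz
  simp at hz

theorem mobius_re_pos {z : ℂ} (hz : z ∈ ball (0 : ℂ) 1) : 0 < ((1 + z) / (1 - z)).re := by
  rw [mobius_re]
  rw [mem_ball_zero_iff] at hz
  have h1 : 0 < Complex.normSq (1 - z) :=
    Complex.normSq_pos.mpr (one_sub_ne_zero_of_mem_ball (by rwa [mem_ball_zero_iff]))
  have h2 : 0 < 1 - ‖z‖ ^ 2 := by nlinarith [norm_nonneg z]
  positivity

theorem differentiableOn_gfun : DifferentiableOn ℂ gfun (ball 0 1) := by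
  intro z hz
  have h1 := one_sub_ne_zero_of_mem_ball hz
  have h2 := mobius_re_pos hz
  have h3 : DifferentiableAt ℂ (fun z : ℂ => (1 + z) / (1 - z)) z :=
    DifferentiableAt.div (by fun_prop) (by fun_prop) h1
  have h4 : DifferentiableAt ℂ (fun z : ℂ => Complex.log ((1 + z) / (1 - z))) z :=
    h3.clog (Or.inl h2)
  have h5 : DifferentiableAt ℂ gfun z := by
    unfold gfun
    exact ((h4.const_mul _).const_add _).cexp
  exact h5.differentiableWithinAt

theorem continuousAt_gfun {z : ℂ} (hz1 : 1 - z ≠ 0)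
    (hz : (1 + z) / (1 - z) ∈ Complex.slitPlane) : ContinuousAt gfun z := by
  have h3 : ContinuousAt (fun z : ℂ => (1 + z) / (1 - z)) z :=
    ContinuousAt.div (by fun_prop) (by fun_prop) hz1
  have h4 : ContinuousAt (fun z : ℂ => Complex.log ((1 + z) / (1 - z))) z := h3.clog hz
  unfold gfun
  exact (continuousAt_const.add (continuousAt_const.mul h4)).cexp

theorem abs_arg_lt_of_mem_ball {z : ℂ} (hz : z ∈ ball (0 : ℂ) 1) :
    |((1 + z) / (1 - z)).arg| < Real.pi / 2 := by
  rw [Complex.abs_arg_lt_pi_div_two_iff]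
  exact Or.inl (mobius_re_pos hz)

theorem one_lt_norm_gfun {z : ℂ} (hz : z ∈ ball (0 : ℂ) 1) : 1 < ‖gfun z‖ := by
  rw [norm_gfun, Real.one_lt_exp_iff]
  have h1 := abs_lt.mp (abs_arg_lt_of_mem_ball hz)
  have : ((1 + z) / (1 - z)).arg / Real.pi < 1 / 2 := by
    rw [div_lt_iff₀ Real.pi_pos]
    linarith [h1.2]
  linarith

theorem norm_gfun_lt {z : ℂ} (hz : z ∈ ball (0 : ℂ) 1) : ‖gfun z‖ < Real.exp 1 := by
  rw [norm_gfun, Real.exp_lt_exp]
  have h1 := abs_lt.mp (abs_arg_lt_of_mem_ball hz)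
  have : -(1 / 2) < ((1 + z) / (1 - z)).arg / Real.pi := by
    rw [lt_div_iff₀ Real.pi_pos]
    linarith [h1.1]
  linarith

/-- Upper half of the circle. -/
def Eup : Set Circ := {t | 0 < (ζ t).im}

/-- Lower half of the circle. -/
def Elo : Set Circ := {t | (ζ t).im < 0}

theorem measurableSet_Eup : MeasurableSet Eup :=
  measurableSet_lt measurable_const (Complex.continuous_im.comp continuous_ζ).measurable

theorem measurableSet_Elo : MeasurableSet Elo :=
  measurableSet_lt (Complex.continuous_im.comp continuous_ζ).measurable measurable_const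

theorem one_sub_ζ_ne_zero {t : Circ} (h : (ζ t).im ≠ 0) : 1 - ζ t ≠ 0 := by
  intro h0
  apply h
  rw [(sub_eq_zero.mp h0).symm]
  simp

theorem mobius_ζ_re (t : Circ) : ((1 + ζ t) / (1 - ζ t)).re = 0 := by
  rw [mobius_re, norm_ζ]
  simp

theorem norm_gfun_up {t : Circ} (h : t ∈ Eup) : ‖gfun (ζ t)‖ = 1 := by
  have h0 : 0 < (ζ t).im := h
  have him : 0 < ((1 + ζ t) / (1 - ζ t)).im := by
    rw [mobius_im]
    have := Complex.normSq_pos.mpr (one_sub_ζ_ne_zero h0.ne')
    positivity
  have harg : ((1 + ζ t) / (1 - ζ t)).arg = Real.pi / 2 := by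
    rw [Complex.arg_eq_pi_div_two_iff]
    exact ⟨mobius_ζ_re t, him⟩
  rw [norm_gfun, harg]
  have : Real.pi ≠ 0 := Real.pi_ne_zero
  rw [show (1 / 2 : ℝ) - Real.pi / 2 / Real.pi = 0 by field_simp; ring, Real.exp_zero]

theorem norm_gfun_lo {t : Circ} (h : t ∈ Elo) : ‖gfun (ζ t)‖ = Real.exp 1 := by
  have h0 : (ζ t).im < 0 := h
  have him : ((1 + ζ t) / (1 - ζ t)).im < 0 := by
    rw [mobius_im]
    have := Complex.normSq_pos.mpr (one_sub_ζ_ne_zero h0.ne)
    exact div_neg_of_neg_of_pos (by linarith) this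
  have harg : ((1 + ζ t) / (1 - ζ t)).arg = -(Real.pi / 2) := by
    rw [Complex.arg_eq_neg_pi_div_two_iff]
    exact ⟨mobius_ζ_re t, him⟩
  rw [norm_gfun, harg]
  have : Real.pi ≠ 0 := Real.pi_ne_zero
  congr 1
  field_simp
  ring

theorem continuousAt_gfun_ζ {t : Circ} (h : (ζ t).im ≠ 0) : ContinuousAt gfun (ζ t) := by
  refine continuousAt_gfun (one_sub_ζ_ne_zero h) ?_
  refine Or.inr ?_
  rw [mobius_im]
  have := Complex.normSq_pos.mpr (one_sub_ζ_ne_zero h)
  exact div_ne_zero (mul_ne_zero two_ne_zero h) this.ne'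

theorem neBot_circ : (𝓝[≠] (0 : Circ)).NeBot := by
  have h : Tendsto ((↑) : ℝ → Circ) (𝓝[≠] 0) (𝓝[≠] 0) := by
    rw [tendsto_nhdsWithin_iff]
    constructor
    · have hc : Continuous ((↑) : ℝ → Circ) := AddCircle.continuous_mk' _
      have := (hc.tendsto 0).mono_left (nhdsWithin_le_nhds (s := {0}ᶜ))
      simpa using this
    · have h1 : ∀ᶠ x : ℝ in 𝓝[≠] 0, x ∈ Set.Ioo (-(2 * Real.pi)) (2 * Real.pi) := by
        refine mem_nhdsWithin_of_mem_nhds (Ioo_mem_nhds ?_ ?_)
        · have := Real.pi_pos; linarith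
        · have := Real.pi_pos; linarith
      filter_upwards [h1, self_mem_nhdsWithin] with x hx hx0
      intro h0
      apply hx0
      rw [Set.mem_singleton_iff] at h0
      rw [AddCircle.coe_eq_zero_iff] at h0
      obtain ⟨n, hn⟩ := h0
      rw [zsmul_eq_mul] at hn
      have h2 : (n : ℝ) < 1 := by
        by_contra hcon
        push Not at hcon
        have := hx.2
        rw [← hn] at this
        nlinarith [Real.pi_pos]
      have h3 : -1 < (n : ℝ) := by
        by_contra hcon
        push Not at hcon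
        have := hx.1
        rw [← hn] at this
        nlinarith [Real.pi_pos]
      have h4 : n = 0 := by
        have h5 : n < 1 := by exact_mod_cast h2
        have h6 : -1 < n := by exact_mod_cast h3
        omega
      rw [Set.mem_singleton_iff, ← hn, h4]
      simp
  exact h.neBot

instance nullSingleton_μc : NullSingletonClass μc := by
  have := neBot_circ
  exact Measure.IsAddHaarMeasure.nullSingletonClass μc

/-- The real points of the circle form a null set. -/
theorem ae_im_ne_zero : ∀ᵐ t ∂μc, (ζ t).im ≠ 0 := by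
  have hsub : {t : Circ | ¬ (ζ t).im ≠ 0} ⊆ ζ ⁻¹' {1, -1} := by
    intro t ht
    simp only [not_not, Set.mem_ofPred_eq] at ht
    have h1 : Complex.normSq (ζ t) = 1 := by rw [Complex.normSq_eq_norm_sq, norm_ζ]; norm_num
    rw [Complex.normSq_apply, ht] at h1
    have h2 : ((ζ t).re - 1) * ((ζ t).re + 1) = 0 := by linarith
    rcases mul_eq_zero.mp h2 with h3 | h3
    · left
      apply Complex.ext
      · simp; linarith
      · simp [ht]
    · right
      rw [Set.mem_singleton_iff]
      apply Complex.ext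
      · simp; linarith
      · simp [ht]
  have hinj : Function.Injective ζ := by
    intro s t hst
    have : (toCircle s) = toCircle t := Subtype.ext hst
    exact injective_toCircle Real.two_pi_pos.ne' this
  have hfin : (ζ ⁻¹' {1, -1}).Finite :=
    (Set.toFinite ({1, -1} : Set ℂ)).preimage hinj.injOn
  have hnull : μc (ζ ⁻¹' {1, -1}) = 0 := hfin.measure_zero _
  rw [ae_iff]
  exact measure_mono_null hsub hnull

/-- Radial limits of `g` on the circle. -/
theorem gfun_radial : ∀ᵐ t ∂μc, Tendsto (fun s : ℝ => gfun (s * ζ t)) (𝓝[<] 1) (𝓝 (gfun (ζ t))) := by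
  filter_upwards [ae_im_ne_zero] with t ht
  have h1 := continuousAt_gfun_ζ ht
  have h2 : Tendsto (fun s : ℝ => (s : ℂ) * ζ t) (𝓝[<] 1) (𝓝 (ζ t)) := by
    have h3 : Continuous fun s : ℝ => (s : ℂ) * ζ t := by fun_prop
    have h4 := (h3.tendsto 1).mono_left (nhdsWithin_le_nhds (s := Set.Iio (1:ℝ)))
    simpa using h4
  exact h1.tendsto.comp h2

theorem measurable_gfun_ζ : Measurable fun t => gfun (ζ t) := by
  unfold gfun
  have := continuous_ζ.measurable
  fun_prop

end

end Pool.Agent.H91
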