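import Mathlib
import Pool.Agent.H91.StripMap

/-!
Multiplication operators on `L^4` of the circle, and the asymptotic 2-orthogonality inequality.
-/

open MeasureTheory AddCircle Filter Topology Metric
open scoped ENNReal ComplexConjugate

namespace Pool.Agent.H91

noncomputable section

/-- Bounded measurable functions on the circle. -/
def BddMeas (φ : Circ → ℂ) : Prop := Measurable φ ∧ ∃ K : ℝ, ∀ t, ‖φ t‖ ≤ K

theorem BddMeas.memLp {φ : Circ → ℂ} (h : BddMeas φ) (f : Lp ℂ 4 μc) :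
    MemLp (fun t => φ t * f t) 4 μc := by
  obtain ⟨hm, K, hK⟩ := h
  refine MemLp.of_le_mul (c := K) (Lp.memLp f) (hm.aestronglyMeasurable.mul
    (Lp.aestronglyMeasurable f)) (ae_of_all _ fun t => ?_)
  rw [norm_mul]
  gcongr
  exact hK t

open Classical in
/-- Multiplication by a bounded measurable function, on `L^4`. -/
def mulL (φ : Circ → ℂ) : Lp ℂ 4 μc →L[ℂ] Lp ℂ 4 μc :=
  if h : BddMeas φ then
    LinearMap.mkContinuousOfExistsBound
      { toFun := fun f => (h.memLp f).toLp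
        map_add' := fun f g => by
          apply Lp.ext
          filter_upwards [(h.memLp (f + g)).coeFn_toLp, (h.memLp f).coeFn_toLp,
            (h.memLp g).coeFn_toLp, Lp.coeFn_add f g,
            Lp.coeFn_add (h.memLp f).toLp (h.memLp g).toLp] with t h1 h2 h3 h4 h5
          rw [h1, h5, Pi.add_apply, h2, h3, h4, Pi.add_apply]
          ring
        map_smul' := fun c f => by
          apply Lp.ext
          filter_upwards [(h.memLp (c • f)).coeFn_toLp, (h.memLp f).coeFn_toLp,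
            Lp.coeFn_smul c f, Lp.coeFn_smul c (h.memLp f).toLp] with t h1 h2 h3 h4
          rw [h1, RingHom.id_apply, h4, Pi.smul_apply, h2, h3, Pi.smul_apply, smul_eq_mul,
            smul_eq_mul]
          ring }
      (by
        obtain ⟨hm, K, hK⟩ := id h
        refine ⟨K, fun f => ?_⟩
        refine Lp.norm_le_mul_norm_of_ae_le_mul ?_
        simp only [LinearMap.coe_mk, AddHom.coe_mk]
        filter_upwards [(h.memLp f).coeFn_toLp] with t ht
        rw [ht, norm_mul]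
        gcongr
        exact hK t)
  else 0

theorem coe_mulL {φ : Circ → ℂ} (h : BddMeas φ) (f : Lp ℂ 4 μc) :
    mulL φ f =ᵐ[μc] fun t => φ t * f t := by
  unfold mulL
  rw [dif_pos h]
  exact (h.memLp f).coeFn_toLp

theorem norm_mulL_le {φ : Circ → ℂ} (h : BddMeas φ) {K : ℝ} (hK : ∀ t, ‖φ t‖ ≤ K)
    (f : Lp ℂ 4 μc) : ‖mulL φ f‖ ≤ K * ‖f‖ := by
  refine Lp.norm_le_mul_norm_of_ae_le_mul ?_
  filter_upwards [coe_mulL h f] with t ht
  rw [ht, norm_mul]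
  gcongr
  exact hK t

theorem BddMeas.mul {φ ψ : Circ → ℂ} (h : BddMeas φ) (h' : BddMeas ψ) :
    BddMeas (fun t => φ t * ψ t) := by
  obtain ⟨hm, K, hK⟩ := h
  obtain ⟨hm', K', hK'⟩ := h'
  refine ⟨hm.mul hm', K * K', fun t => ?_⟩
  rw [norm_mul]
  have := (norm_nonneg (φ t)).trans (hK t)
  gcongr
  · exact hK t
  · exact hK' t

theorem mulL_mulL {φ ψ : Circ → ℂ} (h : BddMeas φ) (h' : BddMeas ψ) (f : Lp ℂ 4 μc) :
    mulL φ (mulL ψ f) = mulL (fun t => φ t * ψ t) f := by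
  apply Lp.ext
  filter_upwards [coe_mulL h (mulL ψ f), coe_mulL h' f, coe_mulL (h.mul h') f] with t h1 h2 h3
  rw [h1, h2, h3]
  ring

theorem mulL_congr {φ ψ : Circ → ℂ} (h : BddMeas φ) (h' : BddMeas ψ)
    (he : ∀ᵐ t ∂μc, φ t = ψ t) : mulL φ = mulL ψ := by
  ext1 f
  apply Lp.ext
  filter_upwards [coe_mulL h f, coe_mulL h' f, he] with t h1 h2 h3
  rw [h1, h2, h3]

theorem bddMeas_of_norm_one {φ : Circ → ℂ} (hm : Measurable φ) (h1 : ∀ t, ‖φ t‖ = 1) :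
    BddMeas φ := ⟨hm, 1, fun t => (h1 t).le⟩

theorem norm_mulL_of_norm_one {φ : Circ → ℂ} (hm : Measurable φ) (h1 : ∀ t, ‖φ t‖ = 1)
    (f : Lp ℂ 4 μc) : ‖mulL φ f‖ = ‖f‖ := by
  apply le_antisymm
  · have := norm_mulL_le (bddMeas_of_norm_one hm h1) (K := 1) (fun t => (h1 t).le) f
    linarith
  · have : ‖f‖ ≤ 1 * ‖mulL φ f‖ := by
      refine Lp.norm_le_mul_norm_of_ae_le_mul ?_
      filter_upwards [coe_mulL (bddMeas_of_norm_one hm h1) f] with t ht
      rw [ht, norm_mul, h1, one_mul, one_mul]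
    linarith

theorem norm_inv_of_norm_one {φ : Circ → ℂ} (h1 : ∀ t, ‖φ t‖ = 1) (t : Circ) :
    ‖(φ t)⁻¹‖ = 1 := by rw [norm_inv, h1, inv_one]

/-- Multiplication by a unimodular measurable function as a linear isometric equivalence. -/
def mulU (φ : Circ → ℂ) (hm : Measurable φ) (h1 : ∀ t, ‖φ t‖ = 1) : Lp ℂ 4 μc ≃ₗᵢ[ℂ] Lp ℂ 4 μc where
  toFun := mulL φ
  map_add' := map_add _
  map_smul' := map_smul _
  invFun := mulL (fun t => (φ t)⁻¹)
  left_inv f := by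
    have hb := bddMeas_of_norm_one hm h1
    have hb' : BddMeas (fun t => (φ t)⁻¹) := bddMeas_of_norm_one hm.inv (norm_inv_of_norm_one h1)
    apply Lp.ext
    filter_upwards [coe_mulL hb' (mulL φ f), coe_mulL hb f] with t h2 h3
    rw [h2, h3]
    have : φ t ≠ 0 := fun h0 => by have := h1 t; rw [h0] at this; simp at this
    field_simp
  right_inv f := by
    have hb := bddMeas_of_norm_one hm h1
    have hb' : BddMeas (fun t => (φ t)⁻¹) := bddMeas_of_norm_one hm.inv (norm_inv_of_norm_one h1)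
    apply Lp.ext
    filter_upwards [coe_mulL hb (mulL (fun t => (φ t)⁻¹) f), coe_mulL hb' f] with t h2 h3
    rw [h2, h3]
    have : φ t ≠ 0 := fun h0 => by have := h1 t; rw [h0] at this; simp at this
    field_simp
  norm_map' f := norm_mulL_of_norm_one hm h1 f

theorem mulU_apply (φ : Circ → ℂ) (hm : Measurable φ) (h1 : ∀ t, ‖φ t‖ = 1) (f : Lp ℂ 4 μc) :
    mulU φ hm h1 f = mulL φ f := rfl

theorem mulU_symm_apply (φ : Circ → ℂ) (hm : Measurable φ) (h1 : ∀ t, ‖φ t‖ = 1) (f : Lp ℂ 4 μc) :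
    (mulU φ hm h1).symm f = mulL (fun t => (φ t)⁻¹) f := rfl

theorem bddMeas_zpow {φ : Circ → ℂ} (hm : Measurable φ) (h1 : ∀ t, ‖φ t‖ = 1) (n : ℤ) :
    BddMeas (fun t => φ t ^ n) := by
  refine ⟨?_, 1, fun t => by rw [norm_zpow, h1, one_zpow]⟩
  cases n with
  | ofNat n => simpa using hm.pow_const n
  | negSucc n => simpa [zpow_negSucc] using (hm.pow_const (n + 1))

theorem mulU_zpow (φ : Circ → ℂ) (hm : Measurable φ) (h1 : ∀ t, ‖φ t‖ = 1) (n : ℤ)
    (f : Lp ℂ 4 μc) : (mulU φ hm h1 ^ n) f = mulL (fun t => φ t ^ n) f := by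
  have hne : ∀ t, φ t ≠ 0 := fun t h0 => by have := h1 t; rw [h0] at this; simp at this
  induction n using Int.induction_on generalizing f with
  | zero =>
    have hb : BddMeas (fun t => φ t ^ (0:ℤ)) := bddMeas_zpow hm h1 0
    apply Lp.ext
    filter_upwards [coe_mulL hb f] with t ht
    rw [ht]
    simp
  | succ n ih =>
    rw [zpow_add_one, LinearIsometryEquiv.coe_mul, Function.comp_apply, ih, mulU_apply,
      mulL_mulL (bddMeas_zpow hm h1 _) (bddMeas_of_norm_one hm h1)]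
    refine congrArg (fun ψ => mulL ψ f) ?_
    funext t
    rw [zpow_add_one₀ (hne t)]
  | pred n ih =>
    rw [zpow_sub_one, LinearIsometryEquiv.coe_mul, Function.comp_apply, ih]
    have : (mulU φ hm h1)⁻¹ f = mulL (fun t => (φ t)⁻¹) f := rfl
    have hb' : BddMeas (fun t => (φ t)⁻¹) := bddMeas_of_norm_one hm.inv (norm_inv_of_norm_one h1)
    rw [this, mulL_mulL (bddMeas_zpow hm h1 _) hb']
    refine congrArg (fun ψ => mulL ψ f) ?_
    funext t
    rw [zpow_sub_one₀ (hne t)]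

section AI

theorem integrable_norm_pow4 (f : Lp ℂ 4 μc) : Integrable (fun t => ‖f t‖ ^ 4) μc := by
  have := (Lp.memLp f).integrable_norm_pow (by norm_num)
  simpa using this

theorem pointwise_expand (a b z : ℂ) (hz : ‖z‖ = 1) :
    ‖a + z * b‖ ^ 4 = ((‖a‖ ^ 2 + ‖b‖ ^ 2) ^ 2 + 2 * (‖a‖ ^ 2 * ‖b‖ ^ 2))
      + (z * (4 * (‖a‖ ^ 2 + ‖b‖ ^ 2 : ℝ) * (conj a * b))).re
      + (z ^ 2 * (2 * (conj a ^ 2 * b ^ 2))).re := by
  have h1 : ‖a + z * b‖ ^ 2 = ‖a‖ ^ 2 + ‖b‖ ^ 2 + 2 * (z * (conj a * b)).re := by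
    rw [← Complex.normSq_eq_norm_sq, Complex.normSq_add, Complex.normSq_eq_norm_sq,
      Complex.normSq_eq_norm_sq, norm_mul, hz, one_mul]
    congr 2
    have : (a * conj (z * b)).re = (conj (a * conj (z * b))).re := by rw [Complex.conj_re]
    rw [this]
    simp only [map_mul, Complex.conj_conj]
    congr 1
    ring
  set w : ℂ := z * (conj a * b) with hw
  have h2 : Complex.normSq w = ‖a‖ ^ 2 * ‖b‖ ^ 2 := by
    rw [hw, Complex.normSq_eq_norm_sq, norm_mul, norm_mul, hz, RCLike.norm_conj]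
    ring
  have h3 : (w ^ 2).re = 2 * w.re ^ 2 - Complex.normSq w := by
    rw [sq, Complex.mul_re, Complex.normSq_apply]
    ring
  have h4 : (z * (4 * (‖a‖ ^ 2 + ‖b‖ ^ 2 : ℝ) * (conj a * b))).re =
      4 * (‖a‖ ^ 2 + ‖b‖ ^ 2) * w.re := by
    have : z * (4 * (‖a‖ ^ 2 + ‖b‖ ^ 2 : ℝ) * (conj a * b)) =
      ((4 * (‖a‖ ^ 2 + ‖b‖ ^ 2) : ℝ) : ℂ) * w := by
      rw [hw]; push_cast; ring
    rw [this, Complex.re_ofReal_mul]
  have h5 : (z ^ 2 * (2 * (conj a ^ 2 * b ^ 2))).re = 2 * (w ^ 2).re := by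
    have : z ^ 2 * (2 * (conj a ^ 2 * b ^ 2)) = ((2 : ℝ) : ℂ) * w ^ 2 := by
      rw [hw]; push_cast; ring
    rw [this, Complex.re_ofReal_mul]
  rw [h4, h5, h3, h2]
  have h6 : ‖a + z * b‖ ^ 4 = (‖a + z * b‖ ^ 2) ^ 2 := by ring
  rw [h6, h1]
  ring

/-- Cauchy-Schwarz. -/
theorem cs_norm4 (G v : Lp ℂ 4 μc) :
    ∫ t, ‖G t‖ ^ 2 * ‖v t‖ ^ 2 ∂μc ≤ ‖G‖ ^ 2 * ‖v‖ ^ 2 := by
  have hG := integrable_norm_pow4 G
  have hv := integrable_norm_pow4 v
  have hmG : AEStronglyMeasurable (fun t => ‖G t‖ ^ 2) μc :=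
    ((Lp.aestronglyMeasurable G).norm.pow 2)
  have hmv : AEStronglyMeasurable (fun t => ‖v t‖ ^ 2) μc :=
    ((Lp.aestronglyMeasurable v).norm.pow 2)
  have hI : Integrable (fun t => ‖G t‖ ^ 2 * ‖v t‖ ^ 2) μc := by
    refine Integrable.mono' (hG.add hv) (hmG.mul hmv) (ae_of_all _ fun t => ?_)
    rw [Real.norm_of_nonneg (by positivity)]
    simp only [Pi.add_apply]
    nlinarith [sq_nonneg (‖G t‖ ^ 2 - ‖v t‖ ^ 2), sq_nonneg (‖G t‖ ^ 2), sq_nonneg (‖v t‖ ^ 2)]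
  set I := ∫ t, ‖G t‖ ^ 2 * ‖v t‖ ^ 2 ∂μc with hIdef
  have hI0 : 0 ≤ I := integral_nonneg fun t => by positivity
  have hq : ∀ x : ℝ, 0 ≤ ‖G‖ ^ 4 * (x * x) + (-2 * I) * x + ‖v‖ ^ 4 := by
    intro x
    have h1 : 0 ≤ ∫ t, (x * ‖G t‖ ^ 2 - ‖v t‖ ^ 2) ^ 2 ∂μc :=
      integral_nonneg fun t => sq_nonneg _
    have h2 : ∫ t, (x * ‖G t‖ ^ 2 - ‖v t‖ ^ 2) ^ 2 ∂μc =
        (x * x) * ‖G‖ ^ 4 + (-2 * x) * I + ‖v‖ ^ 4 := by
      rw [norm4, norm4, hIdef, ← integral_const_mul, ← integral_const_mul,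
        ← integral_add (hG.const_mul _) (hI.const_mul _), ← integral_add _ hv]
      · refine integral_congr_ae (ae_of_all _ fun t => ?_)
        simp only
        ring
      · exact (hG.const_mul _).add (hI.const_mul _)
    rw [h2] at h1
    linarith
  have hd := discrim_le_zero hq
  unfold discrim at hd
  have h3 : I ^ 2 ≤ (‖G‖ ^ 2 * ‖v‖ ^ 2) ^ 2 := by nlinarith
  exact le_of_sq_le_sq h3 (by positivity) |> fun h => h

/-- The asymptotic 2-orthogonality inequality for multiplication by unimodular functions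
with the Riemann-Lebesgue property. -/
theorem AI_gen (z : ℕ → Circ → ℂ) (hm : ∀ n, Measurable (z n)) (h1 : ∀ n t, ‖z n t‖ = 1)
    (hRL1 : ∀ F : Circ → ℂ, Integrable F μc → Tendsto (fun n => ∫ t, z n t * F t ∂μc) atTop (𝓝 0))
    (hRL2 : ∀ F : Circ → ℂ, Integrable F μc →
      Tendsto (fun n => ∫ t, z n t ^ 2 * F t ∂μc) atTop (𝓝 0))
    (G v : Lp ℂ 4 μc) (ε : ℝ) (hε : 0 < ε) :
    ∀ᶠ n in atTop, ‖G + mulL (z n) v‖ ^ 2 ≤ ‖G‖ ^ 2 + 2 * ‖v‖ ^ 2 + ε := by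
  have hG := integrable_norm_pow4 G
  have hv := integrable_norm_pow4 v
  have hGm := Lp.aestronglyMeasurable G
  have hvm := Lp.aestronglyMeasurable v
  have hmG : AEStronglyMeasurable (fun t => ‖G t‖ ^ 2) μc := (hGm.norm.pow 2)
  have hmv : AEStronglyMeasurable (fun t => ‖v t‖ ^ 2) μc := (hvm.norm.pow 2)
  let F1 : Circ → ℂ := fun t => 4 * (‖G t‖ ^ 2 + ‖v t‖ ^ 2 : ℝ) * (conj (G t) * v t)
  let F2 : Circ → ℂ := fun t => 2 * (conj (G t) ^ 2 * v t ^ 2)
  have hcG : AEStronglyMeasurable (fun t => conj (G t)) μc :=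
    Complex.continuous_conj.comp_aestronglyMeasurable hGm
  have hF1 : Integrable F1 μc := by
    refine Integrable.mono' ((hG.add hv).const_mul 4) ?_ (ae_of_all _ fun t => ?_)
    · refine AEStronglyMeasurable.mul ?_ (hcG.mul hvm)
      exact (Complex.continuous_ofReal.comp_aestronglyMeasurable (hmG.add hmv)).const_mul 4
    · simp only [F1, Pi.add_apply]
      rw [norm_mul, norm_mul, norm_mul, RCLike.norm_conj, Complex.norm_real,
        Real.norm_of_nonneg (by positivity)]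
      have : ‖(4 : ℂ)‖ = 4 := by norm_num
      rw [this]
      nlinarith [sq_nonneg (‖G t‖ ^ 2 - ‖v t‖ ^ 2), sq_nonneg (‖G t‖ - ‖v t‖),
        mul_nonneg (norm_nonneg (G t)) (norm_nonneg (v t)), sq_nonneg (‖G t‖ ^ 2 + ‖v t‖ ^ 2),
        mul_nonneg (add_nonneg (sq_nonneg ‖G t‖) (sq_nonneg ‖v t‖)) (sq_nonneg (‖G t‖ - ‖v t‖))]
  have hF2 : Integrable F2 μc := by
    refine Integrable.mono' (hG.add hv) ?_ (ae_of_all _ fun t => ?_)
    · exact ((hcG.pow 2).mul (hvm.pow 2)).const_mul 2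
    · simp only [F2, Pi.add_apply]
      rw [norm_mul, norm_mul, norm_pow, norm_pow, RCLike.norm_conj]
      have : ‖(2 : ℂ)‖ = 2 := by norm_num
      rw [this]
      nlinarith [sq_nonneg (‖G t‖ ^ 2 - ‖v t‖ ^ 2)]
  have hGv : Integrable (fun t => ‖G t‖ ^ 2 * ‖v t‖ ^ 2) μc := by
    refine Integrable.mono' (hG.add hv) (hmG.mul hmv) (ae_of_all _ fun t => ?_)
    rw [Real.norm_of_nonneg (by positivity)]
    simp only [Pi.add_apply]
    nlinarith [sq_nonneg (‖G t‖ ^ 2 - ‖v t‖ ^ 2), sq_nonneg (‖G t‖ ^ 2), sq_nonneg (‖v t‖ ^ 2)]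
  -- the identity for the norm
  have hint1 : ∀ n, Integrable (fun t => z n t * F1 t) μc := fun n =>
    hF1.bdd_mul (hm n).aestronglyMeasurable (ae_of_all _ fun t => (h1 n t).le)
  have hint2 : ∀ n, Integrable (fun t => z n t ^ 2 * F2 t) μc := fun n =>
    hF2.bdd_mul ((hm n).pow_const 2).aestronglyMeasurable
      (ae_of_all _ fun t => by rw [norm_pow, h1, one_pow])
  have hid : ∀ n, ‖G + mulL (z n) v‖ ^ 4 = (‖G‖ ^ 4 + ‖v‖ ^ 4 +
      4 * ∫ t, ‖G t‖ ^ 2 * ‖v t‖ ^ 2 ∂μc) + (∫ t, z n t * F1 t ∂μc).re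
      + (∫ t, z n t ^ 2 * F2 t ∂μc).re := by
    intro n
    have e1 : (∫ t, z n t * F1 t ∂μc).re = ∫ t, (z n t * F1 t).re ∂μc :=
      (integral_re (hint1 n)).symm
    have e2 : (∫ t, z n t ^ 2 * F2 t ∂μc).re = ∫ t, (z n t ^ 2 * F2 t).re ∂μc :=
      (integral_re (hint2 n)).symm
    have i1 : Integrable (fun t => (z n t * F1 t).re) μc := (hint1 n).re
    have i2 : Integrable (fun t => (z n t ^ 2 * F2 t).re) μc := (hint2 n).re
    have i3 : Integrable (fun t => ‖G t‖ ^ 4 + ‖v t‖ ^ 4) μc := hG.add hv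
    have i4 : Integrable (fun t => 4 * (‖G t‖ ^ 2 * ‖v t‖ ^ 2)) μc := hGv.const_mul 4
    have i5 : Integrable (fun t => ‖G t‖ ^ 4 + ‖v t‖ ^ 4 + 4 * (‖G t‖ ^ 2 * ‖v t‖ ^ 2)) μc :=
      i3.add i4
    have i6 : Integrable (fun t => ‖G t‖ ^ 4 + ‖v t‖ ^ 4 + 4 * (‖G t‖ ^ 2 * ‖v t‖ ^ 2)
      + (z n t * F1 t).re) μc := i5.add i1
    rw [e1, e2, norm4, norm4, norm4, ← integral_const_mul, ← integral_add hG hv,
      ← integral_add i3 i4, ← integral_add i5 i1, ← integral_add i6 i2]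
    refine integral_congr_ae ?_
    filter_upwards [Lp.coeFn_add G (mulL (z n) v),
      coe_mulL (bddMeas_of_norm_one (hm n) (h1 n)) v] with t ht1 ht2
    rw [ht1, Pi.add_apply, ht2, pointwise_expand _ _ _ (h1 n t)]
    simp only [F1, F2]
    ring
  have hl1 : ∀ᶠ n in atTop, (∫ t, z n t * F1 t ∂μc).re < ε ^ 2 / 2 := by
    have := (Complex.continuous_re.tendsto 0).comp (hRL1 F1 hF1)
    rw [Complex.zero_re] at this
    exact this.eventually_lt_const (by positivity)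
  have hl2 : ∀ᶠ n in atTop, (∫ t, z n t ^ 2 * F2 t ∂μc).re < ε ^ 2 / 2 := by
    have := (Complex.continuous_re.tendsto 0).comp (hRL2 F2 hF2)
    rw [Complex.zero_re] at this
    exact this.eventually_lt_const (by positivity)
  filter_upwards [hl1, hl2] with n hn1 hn2
  have hcs := cs_norm4 G v
  have h5 : ‖G + mulL (z n) v‖ ^ 4 ≤ (‖G‖ ^ 2 + 2 * ‖v‖ ^ 2 + ε) ^ 2 := by
    rw [hid n]
    nlinarith [mul_nonneg hε.le (sq_nonneg ‖G‖), mul_nonneg hε.le (sq_nonneg ‖v‖),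
      pow_nonneg (norm_nonneg v) 4]
  have h6 : (‖G + mulL (z n) v‖ ^ 2) ^ 2 ≤ (‖G‖ ^ 2 + 2 * ‖v‖ ^ 2 + ε) ^ 2 := by
    calc _ = ‖G + mulL (z n) v‖ ^ 4 := by ring
      _ ≤ _ := h5
  exact le_of_sq_le_sq h6 (by positivity)

end AI

end

end Pool.Agent.H91
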