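import Mathlib
import Pool.Agent.H91.Mult

/-!
The unimodular function `h = g/|g|` on the circle, its Riemann-Lebesgue property, and the
operators `f ↦ P₊(conj(g^n) f)`.
-/

open MeasureTheory AddCircle Filter Topology Metric
open scoped ENNReal ComplexConjugate

namespace Pool.Agent.H91

noncomputable section

/-- Weak-star null sequences of uniformly bounded functions: it suffices to test on characters. -/
theorem tendsto_integral_of_fourier (φ : ℕ → Circ → ℂ) (hm : ∀ n, Measurable (φ n))
    (h1 : ∀ n, ∀ t, ‖φ n t‖ ≤ 1)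
    (hf : ∀ m : ℤ, Tendsto (fun n => ∫ t, φ n t * ζ t ^ m ∂μc) atTop (𝓝 0))
    (F : Circ → ℂ) (hF : Integrable F μc) :
    Tendsto (fun n => ∫ t, φ n t * F t ∂μc) atTop (𝓝 0) := by
  have hint : ∀ n (f : Circ → ℂ), Integrable f μc → Integrable (fun t => φ n t * f t) μc :=
    fun n f hf => hf.bdd_mul (hm n).aestronglyMeasurable (ae_of_all _ (h1 n))
  let S : Submodule ℂ (Lp ℂ 1 μc) :=
    { carrier := {f | Tendsto (fun n => ∫ t, φ n t * f t ∂μc) atTop (𝓝 0)}
      add_mem' := by
        intro f g hf hg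
        simp only [Set.mem_ofPred_eq] at hf hg ⊢
        have := hf.add hg
        rw [add_zero] at this
        refine this.congr fun n => ?_
        rw [← integral_add (hint n _ (L1.integrable_coeFn f)) (hint n _ (L1.integrable_coeFn g))]
        refine integral_congr_ae ?_
        filter_upwards [Lp.coeFn_add f g] with t ht
        rw [ht, Pi.add_apply]
        ring
      zero_mem' := by
        simp only [Set.mem_ofPred_eq]
        refine tendsto_const_nhds.congr fun n => ?_
        symm
        have : ∫ t, φ n t * (0 : Lp ℂ 1 μc) t ∂μc = ∫ _ : Circ, (0 : ℂ) ∂μc := by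
          refine integral_congr_ae ?_
          filter_upwards [Lp.coeFn_zero ℂ 1 μc] with t ht
          rw [ht, Pi.zero_apply, mul_zero]
        rw [this, integral_zero]
      smul_mem' := by
        intro c f hf
        simp only [Set.mem_ofPred_eq] at hf ⊢
        have := hf.const_mul c
        rw [mul_zero] at this
        refine this.congr fun n => ?_
        rw [← integral_const_mul]
        refine integral_congr_ae ?_
        filter_upwards [Lp.coeFn_smul c f] with t ht
        rw [ht, Pi.smul_apply, smul_eq_mul]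
        ring }
  have hS : IsClosed (S : Set (Lp ℂ 1 μc)) := by
    rw [← isSeqClosed_iff_isClosed]
    intro g f hg hgf
    change Tendsto (fun n => ∫ t, φ n t * f t ∂μc) atTop (𝓝 0)
    rw [Metric.tendsto_atTop]
    intro ε hε
    obtain ⟨k, hk⟩ := (Metric.tendsto_atTop.mp hgf (ε / 2) (by positivity))
    have hk' := hk k le_rfl
    have hgk : Tendsto (fun n => ∫ t, φ n t * g k t ∂μc) atTop (𝓝 0) := hg k
    obtain ⟨N, hN⟩ := Metric.tendsto_atTop.mp hgk (ε / 2) (by positivity)
    refine ⟨N, fun n hn => ?_⟩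
    have h2 := hN n hn
    rw [dist_zero_right] at h2 ⊢
    have h3 : ∫ t, φ n t * f t ∂μc = ∫ t, φ n t * g k t ∂μc + ∫ t, φ n t * (f - g k : Lp ℂ 1 μc) t ∂μc := by
      rw [← integral_add (hint n _ (L1.integrable_coeFn (g k)))
        (hint n _ (L1.integrable_coeFn (f - g k)))]
      refine integral_congr_ae ?_
      filter_upwards [Lp.coeFn_sub f (g k)] with t ht
      rw [ht, Pi.sub_apply]
      ring
    have h4 : ‖∫ t, φ n t * (f - g k : Lp ℂ 1 μc) t ∂μc‖ ≤ ‖f - g k‖ := by
      refine (norm_integral_le_integral_norm _).trans ?_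
      rw [L1.norm_eq_integral_norm]
      refine integral_mono (hint n _ (L1.integrable_coeFn _)).norm
        (L1.integrable_coeFn _).norm fun t => ?_
      simp only
      rw [norm_mul]
      have := h1 n t
      nlinarith [norm_nonneg ((f - g k : Lp ℂ 1 μc) t)]
    rw [h3]
    rw [dist_comm, dist_eq_norm] at hk'
    calc _ ≤ ‖∫ t, φ n t * g k t ∂μc‖ + ‖∫ t, φ n t * (f - g k : Lp ℂ 1 μc) t ∂μc‖ := norm_add_le _ _
      _ < ε := by linarith
  have htop : (⊤ : Submodule ℂ (Lp ℂ 1 μc)) ≤ S := by
    rw [← span_fourierLp_closure_eq_top (T := 2 * Real.pi) (p := 1) (by norm_num)]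
    refine Submodule.topologicalClosure_minimal _ ?_ hS
    rw [Submodule.span_le]
    rintro _ ⟨m, rfl⟩
    change Tendsto (fun n => ∫ t, φ n t * (fourierLp 1 m : Lp ℂ 1 μc) t ∂μc) atTop (𝓝 0)
    refine (hf m).congr fun n => ?_
    refine integral_congr_ae ?_
    filter_upwards [coeFn_fourierLp (T := 2 * Real.pi) 1 m] with t ht
    rw [ht, fourier_eq]
  have hF1 : MemLp F 1 μc := memLp_one_iff_integrable.mpr hF
  have hmem : hF1.toLp F ∈ S := htop Submodule.mem_top
  change Tendsto (fun n => ∫ t, φ n t * (hF1.toLp F) t ∂μc) atTop (𝓝 0) at hmem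
  refine hmem.congr fun n => ?_
  refine integral_congr_ae ?_
  filter_upwards [hF1.coeFn_toLp] with t ht
  rw [ht]

/-- Powers of a holomorphic function bounded by one in the disc, and strictly so inside, are
weak-star null on the boundary. -/
theorem tendsto_pow_boundary {F : ℂ → ℂ} (hF : DifferentiableOn ℂ F (ball 0 1))
    (hB : ∀ z ∈ ball (0 : ℂ) 1, ‖F z‖ < 1)
    (hmeas : Measurable fun t => F (ζ t)) (h1 : ∀ t, ‖F (ζ t)‖ ≤ 1)
    (hb : ∀ᵐ t ∂μc, Tendsto (fun s : ℝ => F (s * ζ t)) (𝓝[<] 1) (𝓝 (F (ζ t))))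
    (G : Circ → ℂ) (hG : Integrable G μc) :
    Tendsto (fun n : ℕ => ∫ t, F (ζ t) ^ n * G t ∂μc) atTop (𝓝 0) := by
  refine tendsto_integral_of_fourier (fun n t => F (ζ t) ^ n) (fun n => hmeas.pow_const n)
    (fun n t => by rw [norm_pow]; exact pow_le_one₀ (norm_nonneg _) (h1 t)) ?_ G hG
  intro m
  have hmove : ∀ n : ℕ, ∫ t, F (ζ t) ^ n * ζ t ^ m ∂μc =
      (((1 / 2 : ℝ) : ℂ)) ^ m * ∫ t, F (((1 / 2 : ℝ) : ℂ) * ζ t) ^ n * ζ t ^ m ∂μc := by
    intro n
    refine integral_boundary (F := fun z => F z ^ n) (hF.pow n) 1 (fun z hz => ?_)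
      (fun t => F (ζ t) ^ n) ?_ m (by norm_num) (by norm_num)
    · rw [norm_pow]
      exact pow_le_one₀ (norm_nonneg _) (hB z hz).le
    · filter_upwards [hb] with t ht
      exact ht.pow n
  simp_rw [hmove]
  rw [← mul_zero ((((1 / 2 : ℝ) : ℂ)) ^ m)]
  refine Tendsto.const_mul _ ?_
  have hball : ∀ t, (((1 / 2 : ℝ) : ℂ) * ζ t) ∈ ball (0 : ℂ) 1 := by
    intro t
    rw [mem_ball_zero_iff, norm_mul, norm_ζ, Complex.norm_real]
    norm_num
  have h0 : ∫ _ : Circ, (0 : ℂ) ∂μc = 0 := integral_zero _ _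
  rw [← h0]
  refine tendsto_integral_of_dominated_convergence (fun _ => (1 : ℝ)) (fun n => ?_)
    (integrable_const 1) (fun n => ae_of_all _ fun t => ?_) (ae_of_all _ fun t => ?_)
  · refine Continuous.aestronglyMeasurable ?_
    have hc : Continuous fun t => F (((1 / 2 : ℝ) : ℂ) * ζ t) :=
      hF.continuousOn.comp_continuous (continuous_const.mul continuous_ζ) hball
    exact (hc.pow n).mul (continuous_ζ.zpow₀ m fun t => Or.inl (ζ_ne_zero t))
  · rw [norm_mul, norm_zpow, norm_ζ, one_zpow, mul_one, norm_pow]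
    exact pow_le_one₀ (norm_nonneg _) (hB _ (hball t)).le
  · have := (tendsto_pow_atTop_nhds_zero_of_norm_lt_one (hB _ (hball t))).mul_const (ζ t ^ m)
    rwa [zero_mul] at this

/-- The unimodular function `h = g / |g|` on the circle. -/
def hU (t : Circ) : ℂ := gfun (ζ t) / (‖gfun (ζ t)‖ : ℂ)

theorem measurable_hU : Measurable hU :=
  measurable_gfun_ζ.div (Complex.measurable_ofReal.comp measurable_gfun_ζ.norm)

theorem norm_hU (t : Circ) : ‖hU t‖ = 1 := by
  unfold hU
  rw [norm_div, Complex.norm_real, norm_norm, div_self]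
  exact norm_ne_zero_iff.mpr (gfun_ne_zero _)

theorem hU_ne_zero (t : Circ) : hU t ≠ 0 := fun h => by
  have := norm_hU t
  rw [h] at this
  simp at this

theorem conj_hU (t : Circ) : conj (hU t) = (hU t)⁻¹ := by
  rw [Complex.inv_def, Complex.normSq_eq_norm_sq, norm_hU]
  simp

theorem hU_up {t : Circ} (h : t ∈ Eup) : hU t = gfun (ζ t) := by
  unfold hU
  rw [norm_gfun_up h]
  simp

theorem hU_lo {t : Circ} (h : t ∈ Elo) : hU t = gfun (ζ t) / (Real.exp 1 : ℂ) := by
  unfold hU
  rw [norm_gfun_lo h]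

theorem ae_up_or_lo : ∀ᵐ t ∂μc, t ∈ Eup ∨ t ∈ Elo := by
  filter_upwards [ae_im_ne_zero] with t ht
  rcases lt_or_gt_of_ne ht with h | h
  · exact Or.inr h
  · exact Or.inl h

theorem norm_gfun_ge_one (t : Circ) : 1 ≤ ‖gfun (ζ t)‖ := by
  rw [norm_gfun, Real.one_le_exp_iff]
  have h1 : ((1 + ζ t) / (1 - ζ t)).arg ≤ Real.pi / 2 := by
    have := Complex.abs_arg_le_pi_div_two_iff.mpr (le_of_eq (mobius_ζ_re t).symm)
    exact (abs_le.mp this).2
  have : ((1 + ζ t) / (1 - ζ t)).arg / Real.pi ≤ 1 / 2 := by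
    rw [div_le_iff₀ Real.pi_pos]
    linarith
  linarith

theorem norm_gfun_le_exp (t : Circ) : ‖gfun (ζ t)‖ ≤ Real.exp 1 := by
  rw [norm_gfun, Real.exp_le_exp]
  have h1 : -(Real.pi / 2) ≤ ((1 + ζ t) / (1 - ζ t)).arg := by
    have := Complex.abs_arg_le_pi_div_two_iff.mpr (le_of_eq (mobius_ζ_re t).symm)
    exact (abs_le.mp this).1
  have : -(1 / 2) ≤ ((1 + ζ t) / (1 - ζ t)).arg / Real.pi := by
    rw [le_div_iff₀ Real.pi_pos]
    linarith
  linarith

theorem exp_one_ne_zero : (Real.exp 1 : ℂ) ≠ 0 := by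
  exact_mod_cast (Real.exp_pos 1).ne'

/-- Riemann-Lebesgue for negative powers of `h` on the upper half circle. -/
theorem RL_up (F : Circ → ℂ) (hF : Integrable F μc) :
    Tendsto (fun n : ℕ => ∫ t in Eup, (hU t)⁻¹ ^ n * F t ∂μc) atTop (𝓝 0) := by
  have h := tendsto_pow_boundary (F := fun z => (gfun z)⁻¹)
    (differentiableOn_gfun.inv fun z _ => gfun_ne_zero z)
    (fun z hz => by
      rw [norm_inv]
      exact inv_lt_one_of_one_lt₀ (one_lt_norm_gfun hz))
    measurable_gfun_ζ.inv
    (fun t => by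
      rw [norm_inv]
      exact inv_le_one_of_one_le₀ (norm_gfun_ge_one t))
    (by
      filter_upwards [gfun_radial] with t ht
      exact ht.inv₀ (gfun_ne_zero _))
    (Eup.indicator F) (hF.indicator measurableSet_Eup)
  refine h.congr fun n => ?_
  rw [← integral_indicator measurableSet_Eup]
  refine integral_congr_ae (ae_of_all _ fun t => ?_)
  by_cases ht : t ∈ Eup
  · simp only [Set.indicator_of_mem ht, hU_up ht]
  · simp only [Set.indicator_of_notMem ht, mul_zero]

/-- Riemann-Lebesgue for positive powers of `h` on the lower half circle. -/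
theorem RL_lo (F : Circ → ℂ) (hF : Integrable F μc) :
    Tendsto (fun n : ℕ => ∫ t in Elo, hU t ^ n * F t ∂μc) atTop (𝓝 0) := by
  have h := tendsto_pow_boundary (F := fun z => gfun z / (Real.exp 1 : ℂ))
    (differentiableOn_gfun.div_const _)
    (fun z hz => by
      rw [norm_div, Complex.norm_real, Real.norm_of_nonneg (Real.exp_pos 1).le,
        div_lt_one (Real.exp_pos 1)]
      exact norm_gfun_lt hz)
    (measurable_gfun_ζ.div_const _)
    (fun t => by
      rw [norm_div, Complex.norm_real, Real.norm_of_nonneg (Real.exp_pos 1).le,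
        div_le_one (Real.exp_pos 1)]
      exact norm_gfun_le_exp t)
    (by
      filter_upwards [gfun_radial] with t ht
      exact ht.div_const _)
    (Elo.indicator F) (hF.indicator measurableSet_Elo)
  refine h.congr fun n => ?_
  rw [← integral_indicator measurableSet_Elo]
  refine integral_congr_ae (ae_of_all _ fun t => ?_)
  by_cases ht : t ∈ Elo
  · simp only [Set.indicator_of_mem ht, hU_lo ht]
  · simp only [Set.indicator_of_notMem ht, mul_zero]

theorem split_integral (f : Circ → ℂ) (hf : Integrable f μc) :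
    ∫ t, f t ∂μc = ∫ t in Eup, f t ∂μc + ∫ t in Elo, f t ∂μc := by
  have hd : Disjoint Eup Elo := by
    rw [Set.disjoint_left]
    intro t h1 h2
    have h1' : 0 < (ζ t).im := h1
    have h2' : (ζ t).im < 0 := h2
    exact lt_asymm h1' h2'
  rw [← setIntegral_union hd measurableSet_Elo hf.integrableOn hf.integrableOn]
  rw [← integral_indicator (measurableSet_Eup.union measurableSet_Elo)]
  refine integral_congr_ae ?_
  filter_upwards [ae_up_or_lo] with t ht
  rw [Set.indicator_of_mem]
  exact ht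

theorem integrable_hU_pow_mul (F : Circ → ℂ) (hF : Integrable F μc) (n : ℤ) :
    Integrable (fun t => hU t ^ n * F t) μc := by
  refine hF.bdd_mul (c := 1) (bddMeas_zpow measurable_hU norm_hU n).1.aestronglyMeasurable
    (ae_of_all _ fun t => ?_)
  rw [norm_zpow, norm_hU, one_zpow]

/-- Riemann-Lebesgue for negative powers of `h`. -/
theorem RL_neg (F : Circ → ℂ) (hF : Integrable F μc) :
    Tendsto (fun n : ℕ => ∫ t, hU t ^ (-(n : ℤ)) * F t ∂μc) atTop (𝓝 0) := by
  have h1 := RL_up F hF
  have h2 := RL_lo (fun t => conj (F t)) (by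
    have := hF.norm
    exact (integrable_norm_iff ((Complex.continuous_conj.comp_aestronglyMeasurable
      hF.aestronglyMeasurable))).mp (by simpa using this))
  have h3 : Tendsto (fun n : ℕ => ∫ t in Elo, hU t ^ (-(n : ℤ)) * F t ∂μc) atTop (𝓝 0) := by
    have h4 := (Complex.continuous_conj.tendsto 0).comp h2
    rw [map_zero] at h4
    refine h4.congr fun n => ?_
    simp only [Function.comp_apply]
    rw [← integral_conj]
    refine integral_congr_ae (ae_of_all _ fun t => ?_)
    simp only [map_mul, map_pow, Complex.conj_conj, conj_hU]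
    rw [zpow_neg, zpow_natCast, inv_pow]
  have h5 := h1.add h3
  rw [add_zero] at h5
  refine h5.congr fun n => ?_
  rw [split_integral _ (integrable_hU_pow_mul F hF _)]
  congr 1
  refine integral_congr_ae (ae_of_all _ fun t => ?_)
  simp only
  rw [zpow_neg, zpow_natCast, inv_pow]

/-- Riemann-Lebesgue for positive powers of `h`. -/
theorem RL_pos (F : Circ → ℂ) (hF : Integrable F μc) :
    Tendsto (fun n : ℕ => ∫ t, hU t ^ (n : ℤ) * F t ∂μc) atTop (𝓝 0) := by
  have h2 := RL_neg (fun t => conj (F t)) (by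
    have := hF.norm
    exact (integrable_norm_iff ((Complex.continuous_conj.comp_aestronglyMeasurable
      hF.aestronglyMeasurable))).mp (by simpa using this))
  have h4 := (Complex.continuous_conj.tendsto 0).comp h2
  rw [map_zero] at h4
  refine h4.congr fun n => ?_
  simp only [Function.comp_apply]
  rw [← integral_conj]
  refine integral_congr_ae (ae_of_all _ fun t => ?_)
  simp only [map_mul, Complex.conj_conj, map_zpow₀, conj_hU]
  rw [zpow_neg, inv_zpow, inv_inv]

theorem AI_neg (G v : Lp ℂ 4 μc) (ε : ℝ) (hε : 0 < ε) : ∀ᶠ n : ℕ in atTop,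
    ‖G + (mulU hU measurable_hU norm_hU ^ (-(n : ℤ))) v‖ ^ 2 ≤ ‖G‖ ^ 2 + 2 * ‖v‖ ^ 2 + ε := by
  have := AI_gen (fun n t => hU t ^ (-(n : ℤ)))
    (fun n => (bddMeas_zpow measurable_hU norm_hU _).1)
    (fun n t => by rw [norm_zpow, norm_hU, one_zpow]) RL_neg
    (fun F hF => by
      have h := (RL_neg F hF).comp (tendsto_id.const_mul_atTop' (r := 2) (by norm_num))
      refine h.congr fun n => ?_
      simp only [Function.comp_apply, id]
      refine integral_congr_ae (ae_of_all _ fun t => ?_)
      simp only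
      congr 1
      rw [← zpow_natCast, ← zpow_mul]
      congr 1
      push_cast
      ring) G v ε hε
  filter_upwards [this] with n hn
  rw [mulU_zpow]
  exact hn

theorem AI_pos (G v : Lp ℂ 4 μc) (ε : ℝ) (hε : 0 < ε) : ∀ᶠ n : ℕ in atTop,
    ‖G + (mulU hU measurable_hU norm_hU ^ (n : ℤ)) v‖ ^ 2 ≤ ‖G‖ ^ 2 + 2 * ‖v‖ ^ 2 + ε := by
  have := AI_gen (fun n t => hU t ^ (n : ℤ))
    (fun n => (bddMeas_zpow measurable_hU norm_hU _).1)
    (fun n t => by rw [norm_zpow, norm_hU, one_zpow]) RL_pos
    (fun F hF => by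
      have h := (RL_pos F hF).comp (tendsto_id.const_mul_atTop' (r := 2) (by norm_num))
      refine h.congr fun n => ?_
      simp only [Function.comp_apply, id]
      refine integral_congr_ae (ae_of_all _ fun t => ?_)
      simp only
      congr 1
      rw [← zpow_natCast, ← zpow_mul]
      congr 1
      push_cast
      ring) G v ε hε
  filter_upwards [this] with n hn
  rw [mulU_zpow]
  exact hn

end

end Pool.Agent.H91
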