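import Mathlib

/-!
A criterion for weak hypercyclicity: an operator which is a quasi-factor of (the inverse of)
an isometry satisfying an asymptotic 2-orthogonality inequality.
-/

open Filter Topology TopologicalSpace

namespace Pool.Agent.H91

/-- Dependent choice along lists: given `P : List ℕ → ℕ → Prop` such that every list has a good
successor, there is a sequence each of whose terms is good for the list of its predecessors. -/
theorem exists_seq_of_lists (P : List ℕ → ℕ → Prop) (h : ∀ l, ∃ n, P l n) :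
    ∃ f : ℕ → ℕ, ∀ k, P ((List.range k).map f) (f k) := by
  classical
  choose g hg using h
  -- build the list of the first k values
  let L : ℕ → List ℕ := fun k => Nat.rec [] (fun _ l => l ++ [g l]) k
  have hL0 : L 0 = [] := rfl
  have hLs : ∀ k, L (k + 1) = L k ++ [g (L k)] := fun k => rfl
  refine ⟨fun k => g (L k), fun k => ?_⟩
  have : (List.range k).map (fun k => g (L k)) = L k := by
    induction k with
    | zero => simp [hL0]
    | succ k ih => rw [List.range_succ, List.map_append, ih, hLs]; simp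
  rw [this]
  exact hg _

section Uniform

variable {Y : Type*} [NormedAddCommGroup Y] [NormedSpace ℂ Y]

omit [NormedSpace ℂ Y] in
theorem abs_sq_norm_sub_le (x y : Y) : |‖x‖ ^ 2 - ‖y‖ ^ 2| ≤ ‖x - y‖ * (‖x‖ + ‖y‖) := by
  have h1 : |‖x‖ - ‖y‖| ≤ ‖x - y‖ := abs_norm_sub_norm_le x y
  have : ‖x‖ ^ 2 - ‖y‖ ^ 2 = (‖x‖ - ‖y‖) * (‖x‖ + ‖y‖) := by ring
  rw [this, abs_mul, abs_of_nonneg (by positivity : (0:ℝ) ≤ ‖x‖ + ‖y‖)]
  gcongr

/-- The uniform version of the asymptotic 2-orthogonality inequality. -/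
theorem uniform_AI (V : ℕ → Y → Y) (hVl : ∀ n (b : ℂ) y, V n (b • y) = b • V n y)
    (hVn : ∀ n y, ‖V n y‖ = ‖y‖) (C : ℝ)
    (hAI : ∀ (G v : Y) (ε : ℝ), 0 < ε → ∀ᶠ n : ℕ in atTop,
      ‖G + V n v‖ ^ 2 ≤ ‖G‖ ^ 2 + C * ‖v‖ ^ 2 + ε)
    (k : ℕ) (W : Fin k → Y) (F : Y) (ε : ℝ) (hε : 0 < ε) :
    ∀ᶠ n : ℕ in atTop, ∀ (c : Fin k → ℂ) (b : ℂ),
      ‖(∑ j, c j • W j) + b • V n F‖ ^ 2 ≤ ‖∑ j, c j • W j‖ ^ 2 + C * (‖b‖ ^ 2 * ‖F‖ ^ 2)
        + ε * ((∑ j, ‖c j‖ ^ 2) + ‖b‖ ^ 2) := by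
  classical
  -- the compact set of normalised coefficients
  let K : Set ((Fin k → ℂ) × ℂ) := {p | (∑ j, ‖p.1 j‖ ^ 2) + ‖p.2‖ ^ 2 = 1}
  have hKcl : IsClosed K := by
    apply isClosed_eq _ continuous_const
    fun_prop
  have hKb : K ⊆ Metric.closedBall 0 1 := by
    rintro ⟨c, b⟩ hp
    simp only [K, Set.mem_ofPred_eq] at hp
    rw [mem_closedBall_zero_iff, Prod.norm_def]
    have hb : ‖b‖ ^ 2 ≤ 1 := by
      have : (0:ℝ) ≤ ∑ j, ‖c j‖ ^ 2 := by positivity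
      linarith
    have hb' : ‖b‖ ≤ 1 := by nlinarith [norm_nonneg b]
    have hc : ‖c‖ ≤ 1 := by
      rw [pi_norm_le_iff_of_nonneg (by norm_num)]
      intro i
      have h1 : ‖c i‖ ^ 2 ≤ ∑ j, ‖c j‖ ^ 2 :=
        Finset.single_le_sum (f := fun j => ‖c j‖ ^ 2) (fun j _ => by positivity) (Finset.mem_univ i)
      have h2 : ‖c i‖ ^ 2 ≤ 1 := by nlinarith [sq_nonneg ‖b‖]
      nlinarith [norm_nonneg (c i)]
    simpa using ⟨hc, hb'⟩
  have hK : IsCompact K := (isCompact_closedBall _ _).of_isClosed_subset hKcl hKb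
  -- the set of good pairs
  let Φ : ℕ → ((Fin k → ℂ) × ℂ) → ℝ := fun n p =>
    ‖(∑ j, p.1 j • W j) + p.2 • V n F‖ ^ 2 - (‖∑ j, p.1 j • W j‖ ^ 2 + C * (‖p.2‖ ^ 2 * ‖F‖ ^ 2))
  have key : ∀ᶠ n : ℕ in atTop, ∀ p ∈ K, Φ n p ≤ ε := by
    have hs : ∀ p ∈ K, {q : ℕ × ((Fin k → ℂ) × ℂ) | Φ q.1 q.2 ≤ ε} ∈ (atTop : Filter ℕ) ×ˢ 𝓝 p := by
      intro p _
      -- pointwise bound at p
      have h1 : ∀ᶠ n : ℕ in atTop, Φ n p ≤ ε / 2 := by
        filter_upwards [hAI (∑ j, p.1 j • W j) (p.2 • F) (ε / 2) (by positivity)] with n hn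
        simp only [Φ]
        rw [hVl, norm_smul, mul_pow] at hn
        linarith
      -- equicontinuity
      let S : ((Fin k → ℂ) × ℂ) → Y := fun q => ∑ j, q.1 j • W j
      have hS : Continuous S := by fun_prop
      have h2 : ∀ᶠ q in 𝓝 p, ∀ n, Φ n q - Φ n p ≤ ε / 2 := by
        -- bound of the difference by a continuous function vanishing at p
        let D : ((Fin k → ℂ) × ℂ) → ℝ := fun q =>
          (‖S q - S p‖ + ‖q.2 - p.2‖ * ‖F‖) * ((‖S q‖ + ‖q.2‖ * ‖F‖) + (‖S p‖ + ‖p.2‖ * ‖F‖))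
          + |‖S q‖ ^ 2 - ‖S p‖ ^ 2| + |C| * (|‖q.2‖ ^ 2 - ‖p.2‖ ^ 2| * ‖F‖ ^ 2)
        have hD : Continuous D := by
          simp only [D]
          fun_prop
        have hDp : D p = 0 := by simp [D]
        have hlim : ∀ᶠ q in 𝓝 p, D q < ε / 2 := by
          have := hD.continuousAt (x := p)
          rw [ContinuousAt, hDp] at this
          exact this.eventually_lt_const (by positivity)
        filter_upwards [hlim] with q hq n
        have e1 : ‖(S q + q.2 • V n F)‖ ^ 2 - ‖(S p + p.2 • V n F)‖ ^ 2 ≤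
            (‖S q - S p‖ + ‖q.2 - p.2‖ * ‖F‖) * ((‖S q‖ + ‖q.2‖ * ‖F‖) + (‖S p‖ + ‖p.2‖ * ‖F‖)) := by
          refine (le_abs_self _).trans ((abs_sq_norm_sub_le _ _).trans ?_)
          gcongr
          · have : (S q + q.2 • V n F) - (S p + p.2 • V n F) = (S q - S p) + (q.2 - p.2) • V n F := by
              rw [sub_smul]; abel
            rw [this]
            refine (norm_add_le _ _).trans ?_
            rw [norm_smul, hVn]
          · refine (norm_add_le _ _).trans ?_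
            rw [norm_smul, hVn]
          · refine (norm_add_le _ _).trans ?_
            rw [norm_smul, hVn]
        have e2 : -(‖S q‖ ^ 2 - ‖S p‖ ^ 2) ≤ |‖S q‖ ^ 2 - ‖S p‖ ^ 2| := neg_le_abs _
        have e3 : -(C * (‖q.2‖ ^ 2 * ‖F‖ ^ 2) - C * (‖p.2‖ ^ 2 * ‖F‖ ^ 2)) ≤
            |C| * (|‖q.2‖ ^ 2 - ‖p.2‖ ^ 2| * ‖F‖ ^ 2) := by
          have : -(C * (‖q.2‖ ^ 2 * ‖F‖ ^ 2) - C * (‖p.2‖ ^ 2 * ‖F‖ ^ 2)) =
            -(C * ((‖q.2‖ ^ 2 - ‖p.2‖ ^ 2) * ‖F‖ ^ 2)) := by ring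
          rw [this]
          refine (neg_le_abs _).trans ?_
          rw [abs_mul, abs_mul, abs_of_nonneg (by positivity : (0:ℝ) ≤ ‖F‖ ^ 2)]
        have : Φ n q - Φ n p ≤ D q := by
          simp only [Φ, D]
          change ‖(S q + q.2 • V n F)‖ ^ 2 - (‖S q‖ ^ 2 + C * (‖q.2‖ ^ 2 * ‖F‖ ^ 2)) -
            (‖(S p + p.2 • V n F)‖ ^ 2 - (‖S p‖ ^ 2 + C * (‖p.2‖ ^ 2 * ‖F‖ ^ 2))) ≤ _
          linarith
        linarith
      rw [← Filter.eventually_mem_set] at *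
      have := (h1.prod_mk h2)
      filter_upwards [this] with q hq
      have a1 := hq.1
      have a2 := hq.2 q.1
      change Φ q.1 q.2 ≤ ε
      linarith
    have := hK.mem_prod_nhdsSet_of_forall hs
    have h3 : ∀ᶠ n in (atTop : Filter ℕ), ∀ᶠ p in 𝓝ˢ K, Φ n p ≤ ε := Filter.Eventually.curry this
    filter_upwards [h3] with n hn p hp
    exact hn.self_of_nhdsSet p hp
  filter_upwards [key] with n hn c b
  -- homogeneity
  set s : ℝ := (∑ j, ‖c j‖ ^ 2) + ‖b‖ ^ 2 with hs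
  have hs0 : 0 ≤ s := by positivity
  rcases hs0.eq_or_lt with h0 | hpos
  · have hb : ‖b‖ ^ 2 = 0 := by
      have : (0:ℝ) ≤ ∑ j, ‖c j‖ ^ 2 := by positivity
      nlinarith [sq_nonneg ‖b‖]
    have hb' : b = 0 := by simpa using hb
    rw [← h0, hb']
    simp
  · have hr : 0 < Real.sqrt s := Real.sqrt_pos.mpr hpos
    set r := Real.sqrt s with hrdef
    have hr2 : r ^ 2 = s := Real.sq_sqrt hs0
    have hrc : ((r:ℂ)) ≠ 0 := by exact_mod_cast hr.ne'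
    have hmem : ((fun j => ((r:ℂ))⁻¹ * c j), ((r:ℂ))⁻¹ * b) ∈ K := by
      simp only [K, Set.mem_ofPred_eq, norm_mul, mul_pow, norm_inv, Complex.norm_real,
        Real.norm_of_nonneg hr.le, inv_pow, hr2]
      rw [← Finset.mul_sum, ← mul_add, ← hs, inv_mul_cancel₀ hpos.ne']
    have := hn _ hmem
    simp only [Φ] at this
    have e1 : (∑ j, ((r:ℂ)⁻¹ * c j) • W j) = (r:ℂ)⁻¹ • ∑ j, c j • W j := by
      rw [Finset.smul_sum]
      exact Finset.sum_congr rfl fun j _ => by rw [mul_smul]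
    rw [e1, mul_smul, ← smul_add, norm_smul, norm_smul, norm_inv, Complex.norm_real,
      Real.norm_of_nonneg hr.le, norm_mul, norm_inv, Complex.norm_real,
      Real.norm_of_nonneg hr.le, mul_pow, mul_pow, mul_pow, inv_pow, hr2] at this
    have h4 : s⁻¹ * (‖(∑ j, c j • W j) + b • V n F‖ ^ 2 - (‖∑ j, c j • W j‖ ^ 2
        + C * (‖b‖ ^ 2 * ‖F‖ ^ 2))) ≤ ε := by
      calc _ = _ := by ring
        _ ≤ _ := this
    rw [inv_mul_le_iff₀ hpos] at h4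
    linarith

end Uniform

/-- Function version of the dependent choice lemma. -/
theorem exists_seq_of_prev (P : ℕ → (ℕ → ℕ) → ℕ → Prop) (h : ∀ k n, ∃ m, P k n m)
    (hcongr : ∀ k n n' m, (∀ j < k, n j = n' j) → P k n m → P k n' m) :
    ∃ f : ℕ → ℕ, ∀ k, P k f (f k) := by
  obtain ⟨f, hf⟩ := exists_seq_of_lists (fun l m => P l.length (fun j => l.getD j 0) m)
    (fun l => h _ _)
  refine ⟨f, fun k => ?_⟩
  have := hf k
  simp only [List.length_map, List.length_range] at this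
  refine hcongr k _ _ _ (fun j hj => ?_) this
  simp [List.getD, hj]

/-- A criterion for weak density in a normed space. -/
theorem dense_toWeakSpace_of_forall {X : Type*} [NormedAddCommGroup X] [NormedSpace ℂ X]
    (S : Set X)
    (h : ∀ (x : X) (s : Finset (StrongDual ℂ X)) (ε : ℝ), 0 < ε →
      ∃ y ∈ S, ∀ Λ ∈ s, ‖Λ y - Λ x‖ < ε) :
    Dense ((toWeakSpace ℂ X) '' S) := by
  have hw := LinearMap.weakBilin_withSeminorms (topDualPairing ℂ X).flip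
  intro x
  refine (mem_closure_iff_nhds_basis (hw.hasBasis_ball (x := x))).mpr ?_
  rintro ⟨s, r⟩ hr
  obtain ⟨y, hy, hys⟩ := h ((toWeakSpace ℂ X).symm x) s r hr
  refine ⟨toWeakSpace ℂ X y, ⟨y, hy, rfl⟩, ?_⟩
  refine (Seminorm.mem_ball _).mpr ?_
  refine Seminorm.finset_sup_apply_lt hr ?_
  intro Λ hΛ
  have := hys Λ hΛ
  rw [← map_sub] at this
  exact this

section Main

variable {X Y : Type*} [NormedAddCommGroup X] [NormedSpace ℂ X]
  [NormedAddCommGroup Y] [NormedSpace ℂ Y]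

theorem exists_dense_seq_slow [SeparableSpace X] (Θ : Y →L[ℂ] X) (hΘ : DenseRange Θ) (C : ℝ) :
    ∃ v : ℕ → Y, DenseRange (fun t => Θ (v t)) ∧ ∀ t : ℕ, C * ‖v t‖ ^ 2 ≤ t + 1 := by
  classical
  have := UniformSpace.secondCountable_of_separable X
  obtain ⟨S, hS, hSc, hSd⟩ := Dense.exists_countable_dense_subset hΘ
  have hne : S.Nonempty := hSd.nonempty
  obtain ⟨g, hg⟩ := hSc.exists_eq_range hne
  have : ∀ n, ∃ y, Θ y = g n := fun n => by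
    have : g n ∈ S := by rw [hg]; exact ⟨n, rfl⟩
    exact hS this
  choose d hd using this
  refine ⟨fun t => if C * ‖d t.unpair.1‖ ^ 2 ≤ t + 1 then d t.unpair.1 else 0, ?_, ?_⟩
  · refine hSd.mono ?_
    rw [hg]
    rintro _ ⟨j, rfl⟩
    refine ⟨Nat.pair j ⌈C * ‖d j‖ ^ 2⌉₊, ?_⟩
    have h1 : C * ‖d j‖ ^ 2 ≤ ((Nat.pair j ⌈C * ‖d j‖ ^ 2⌉₊ : ℕ) : ℝ) + 1 := by
      have a1 : C * ‖d j‖ ^ 2 ≤ ⌈C * ‖d j‖ ^ 2⌉₊ := Nat.le_ceil _
      have a2 : (⌈C * ‖d j‖ ^ 2⌉₊ : ℝ) ≤ ((Nat.pair j ⌈C * ‖d j‖ ^ 2⌉₊ : ℕ) : ℝ) := by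
        exact_mod_cast Nat.right_le_pair _ _
      linarith
    simp only [Nat.unpair_pair]
    rw [if_pos h1, hd]
  · intro t
    dsimp only
    split_ifs with h
    · exact h
    · simp; positivity

theorem sum_padicValNat_le (k : ℕ) : ∑ j ∈ Finset.range k, padicValNat 2 (j + 1) ≤ k := by
  have h1 : ∑ j ∈ Finset.range k, padicValNat 2 (j + 1) = padicValNat 2 (k.factorial) := by
    induction k with
    | zero => simp
    | succ k ih =>
      rw [Finset.sum_range_succ, ih, Nat.factorial_succ, padicValNat.mul (by omega)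
        (Nat.factorial_ne_zero k), add_comm]
  rw [h1]
  have := sub_one_mul_padicValNat_factorial (p := 2) k
  omega

theorem not_summable_odd (t : ℕ) (δ : ℝ) (hδ : 0 < δ) :
    ¬ Summable (fun m : ℕ => δ / ((2 ^ t * (2 * m + 1) : ℕ) : ℝ)) := by
  intro h
  have h1 : Summable (fun m : ℕ => (1 : ℝ) / ((m + 1 : ℕ) : ℝ)) := by
    have h2 := h.mul_left (δ⁻¹ * 2 ^ t * 2)
    refine Summable.of_nonneg_of_le (fun m => by positivity) (fun m => ?_) h2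
    have : δ⁻¹ * 2 ^ t * 2 * (δ / ((2 ^ t * (2 * m + 1) : ℕ) : ℝ)) = 2 / (2 * m + 1) := by
      push_cast
      field_simp
    rw [this, div_le_div_iff₀ (by positivity) (by positivity)]
    push_cast
    linarith
  exact Real.not_summable_one_div_natCast ((summable_nat_add_iff 1).mp h1)

/-- The partial sums `F_k = ∑_{j<k} U^{n_j} u_j`. -/
noncomputable def Fv (U : Y ≃ₗᵢ[ℂ] Y) (u : ℕ → Y) (n : ℕ → ℕ) (k : ℕ) : Y :=
  ∑ j ∈ Finset.range k, (U ^ (n j : ℤ)) (u j)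

/-- The vectors `W_k = U^{-n_k} F_k`. -/
noncomputable def Wv (U : Y ≃ₗᵢ[ℂ] Y) (u : ℕ → Y) (n : ℕ → ℕ) (k : ℕ) : Y :=
  (U ^ (-(n k : ℤ))) (Fv U u n k)

theorem Fv_congr (U : Y ≃ₗᵢ[ℂ] Y) (u : ℕ → Y) {n n' : ℕ → ℕ} {k : ℕ} (h : ∀ j < k, n j = n' j) :
    Fv U u n k = Fv U u n' k := by
  unfold Fv
  refine Finset.sum_congr rfl fun j hj => ?_
  rw [h j (Finset.mem_range.mp hj)]

theorem Wv_congr (U : Y ≃ₗᵢ[ℂ] Y) (u : ℕ → Y) {n n' : ℕ → ℕ} {k : ℕ} (h : ∀ j ≤ k, n j = n' j) :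
    Wv U u n k = Wv U u n' k := by
  unfold Wv
  rw [h k le_rfl, Fv_congr U u (fun j hj => h j hj.le)]

/-- Choice of the rapidly increasing exponents. -/
theorem exists_exponents (U : Y ≃ₗᵢ[ℂ] Y) (C : ℝ)
    (hAI : ∀ (G v : Y) (ε : ℝ), 0 < ε → ∀ᶠ n : ℕ in atTop,
      ‖G + (U ^ (-(n : ℤ))) v‖ ^ 2 ≤ ‖G‖ ^ 2 + C * ‖v‖ ^ 2 + ε)
    (hAI' : ∀ (G v : Y) (ε : ℝ), 0 < ε → ∀ᶠ n : ℕ in atTop,
      ‖G + (U ^ (n : ℤ)) v‖ ^ 2 ≤ ‖G‖ ^ 2 + C * ‖v‖ ^ 2 + ε)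
    (Θ : Y →L[ℂ] X)
    (hdecay : ∀ u, Tendsto (fun n : ℕ => Θ ((U ^ (n : ℤ)) u)) atTop (𝓝 0)) (u : ℕ → Y) :
    ∃ n : ℕ → ℕ, ∀ k,
      (‖Fv U u n k + (U ^ (n k : ℤ)) (u k)‖ ^ 2 ≤ ‖Fv U u n k‖ ^ 2 + C * ‖u k‖ ^ 2 + 1) ∧
      (∀ (c : Fin k → ℂ) (b : ℂ),
        ‖(∑ j : Fin k, c j • Wv U u n j) + b • (U ^ (-(n k : ℤ))) (Fv U u n k)‖ ^ 2 ≤
          ‖∑ j : Fin k, c j • Wv U u n j‖ ^ 2 + C * (‖b‖ ^ 2 * ‖Fv U u n k‖ ^ 2)
          + (1 / 2 : ℝ) ^ k * ((∑ j, ‖c j‖ ^ 2) + ‖b‖ ^ 2)) ∧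
      (∀ j < k, ‖Θ ((U ^ ((n k : ℤ) - n j)) (u k))‖ ≤ (1 / 2 : ℝ) ^ k) ∧
      ‖Θ ((U ^ (n k : ℤ)) (u k))‖ ≤ (1 / 2 : ℝ) ^ k := by
  refine exists_seq_of_prev (fun k n m =>
      (‖Fv U u n k + (U ^ (m : ℤ)) (u k)‖ ^ 2 ≤ ‖Fv U u n k‖ ^ 2 + C * ‖u k‖ ^ 2 + 1) ∧
      (∀ (c : Fin k → ℂ) (b : ℂ),
        ‖(∑ j : Fin k, c j • Wv U u n j) + b • (U ^ (-(m : ℤ))) (Fv U u n k)‖ ^ 2 ≤
          ‖∑ j : Fin k, c j • Wv U u n j‖ ^ 2 + C * (‖b‖ ^ 2 * ‖Fv U u n k‖ ^ 2)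
          + (1 / 2 : ℝ) ^ k * ((∑ j, ‖c j‖ ^ 2) + ‖b‖ ^ 2)) ∧
      (∀ j < k, ‖Θ ((U ^ ((m : ℤ) - n j)) (u k))‖ ≤ (1 / 2 : ℝ) ^ k) ∧
      ‖Θ ((U ^ (m : ℤ)) (u k))‖ ≤ (1 / 2 : ℝ) ^ k) ?_ ?_
  · intro k n
    have h1 := hAI' (Fv U u n k) (u k) 1 one_pos
    have h2 := uniform_AI (fun n y => (U ^ (-(n : ℤ))) y) (fun n b y => by simp)
      (fun n y => by simp) C hAI k (fun j => Wv U u n j) (Fv U u n k) ((1 / 2 : ℝ) ^ k)
      (by positivity)
    have hd : ∀ᶠ m : ℕ in atTop, ‖Θ ((U ^ (m : ℤ)) (u k))‖ ≤ (1 / 2 : ℝ) ^ k := by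
      have := (hdecay (u k)).norm
      rw [norm_zero] at this
      exact this.eventually_le_const (by positivity)
    have h3 : ∀ᶠ m : ℕ in atTop, ∀ j < k, ‖Θ ((U ^ ((m : ℤ) - n j)) (u k))‖ ≤ (1 / 2 : ℝ) ^ k := by
      have h4 : ∀ j ∈ Finset.range k, ∀ᶠ m : ℕ in atTop,
          ‖Θ ((U ^ ((m : ℤ) - n j)) (u k))‖ ≤ (1 / 2 : ℝ) ^ k := by
        intro j _
        obtain ⟨N, hN⟩ := eventually_atTop.mp hd
        refine eventually_atTop.mpr ⟨N + n j, fun m hm => ?_⟩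
        have := hN (m - n j) (by omega)
        rwa [Nat.cast_sub (by omega)] at this
      have := (Finset.eventually_all (Finset.range k)).mpr h4
      filter_upwards [this] with m hm j hj
      exact hm j (Finset.mem_range.mpr hj)
    exact ((h1.and (h2.and (h3.and hd)))).exists
  · intro k n n' m hnn' ⟨h1, h2, h3, h4⟩
    have hF : Fv U u n' k = Fv U u n k := (Fv_congr U u hnn').symm
    have hW : ∀ j : Fin k, Wv U u n' j = Wv U u n j := fun j =>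
      (Wv_congr U u (fun i hi => hnn' i (lt_of_le_of_lt hi j.2))).symm
    refine ⟨by rw [hF]; exact h1, ?_, ?_, h4⟩
    · intro c b
      simp only [hF, hW]
      exact h2 c b
    · intro j hj
      rw [← hnn' j hj]
      exact h3 j hj

theorem zpow_apply_add (U : Y ≃ₗᵢ[ℂ] Y) (a b : ℤ) (y : Y) :
    (U ^ (a + b)) y = (U ^ a) ((U ^ b) y) := by
  rw [zpow_add, LinearIsometryEquiv.coe_mul]; rfl

/-- Weak hypercyclicity criterion. -/
theorem weaklyHypercyclic_of_intertwine [CompleteSpace X] [SeparableSpace X]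
    (U : Y ≃ₗᵢ[ℂ] Y) (C : ℝ) (hC : 0 ≤ C)
    (hAI : ∀ (G v : Y) (ε : ℝ), 0 < ε → ∀ᶠ n : ℕ in atTop,
      ‖G + (U ^ (-(n : ℤ))) v‖ ^ 2 ≤ ‖G‖ ^ 2 + C * ‖v‖ ^ 2 + ε)
    (hAI' : ∀ (G v : Y) (ε : ℝ), 0 < ε → ∀ᶠ n : ℕ in atTop,
      ‖G + (U ^ (n : ℤ)) v‖ ^ 2 ≤ ‖G‖ ^ 2 + C * ‖v‖ ^ 2 + ε)
    (Θ : Y →L[ℂ] X) (hΘ : DenseRange Θ) (T : X →L[ℂ] X)
    (hT : ∀ u, T (Θ u) = Θ ((U ^ (-1 : ℤ)) u))
    (hdecay : ∀ u, Tendsto (fun n : ℕ => Θ ((U ^ (n : ℤ)) u)) atTop (𝓝 0)) :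
    ∃ x : X, Dense (Set.range fun n : ℕ => toWeakSpace ℂ X ((T ^ n) x)) := by
  classical
  obtain ⟨v, hvd, hvb⟩ := exists_dense_seq_slow Θ hΘ C
  let u : ℕ → Y := fun k => v (padicValNat 2 (k + 1))
  obtain ⟨n, hn⟩ := exists_exponents U C hAI hAI' Θ hdecay u
  -- growth of F
  have hF : ∀ k, ‖Fv U u n k‖ ^ 2 ≤ 3 * k := by
    intro k
    have h1 : ‖Fv U u n k‖ ^ 2 ≤ ∑ j ∈ Finset.range k, ((padicValNat 2 (j + 1) : ℝ) + 2) := by
      induction k with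
      | zero => simp [Fv]
      | succ k ih =>
        rw [Finset.sum_range_succ]
        have h2 := (hn k).1
        have h3 : Fv U u n (k + 1) = Fv U u n k + (U ^ (n k : ℤ)) (u k) := by
          unfold Fv; rw [Finset.sum_range_succ]
        rw [h3]
        have h4 : C * ‖u k‖ ^ 2 ≤ (padicValNat 2 (k + 1) : ℝ) + 1 := hvb _
        linarith
    have h2 : (∑ j ∈ Finset.range k, ((padicValNat 2 (j + 1) : ℝ) + 2)) ≤ 3 * k := by
      rw [Finset.sum_add_distrib]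
      have h3 : (∑ j ∈ Finset.range k, (padicValNat 2 (j + 1) : ℝ)) ≤ k := by
        exact_mod_cast sum_padicValNat_le k
      simp only [Finset.sum_const, Finset.card_range, nsmul_eq_mul]
      linarith
    linarith
  -- upper 2-estimate
  have hW : ∀ (c : ℕ → ℂ) (K : ℕ), ‖∑ j ∈ Finset.range K, c j • Wv U u n j‖ ^ 2 ≤
      ∑ j ∈ Finset.range K, ‖c j‖ ^ 2 * (C * ‖Fv U u n j‖ ^ 2 + ∑ i ∈ Finset.range K, (1 / 2 : ℝ) ^ i) := by
    intro c K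
    induction K with
    | zero => simp
    | succ k ih =>
      have h2 := (hn k).2.1 (fun j => c j) (c k)
      rw [Finset.sum_range_succ (f := fun j => c j • Wv U u n j)]
      rw [Finset.sum_range (f := fun j => c j • Wv U u n j)] at ih ⊢
      change ‖(∑ i : Fin k, c ↑i • Wv U u n ↑i) + c k • (U ^ (-(n k : ℤ))) (Fv U u n k)‖ ^ 2 ≤ _
      refine h2.trans ?_
      refine (add_le_add (add_le_add ih le_rfl) le_rfl).trans ?_
      rw [← Finset.sum_range (f := fun j => ‖c j‖ ^ 2)]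
      rw [Finset.sum_range_succ (f := fun j => ‖c j‖ ^ 2 * (C * ‖Fv U u n j‖ ^ 2 +
        ∑ i ∈ Finset.range (k + 1), (1 / 2 : ℝ) ^ i))]
      simp only [Finset.sum_range_succ (f := fun i => (1 / 2 : ℝ) ^ i)]
      set σ := ∑ i ∈ Finset.range k, (1 / 2 : ℝ) ^ i with hσ
      have hσ0 : 0 ≤ σ := by positivity
      have e1 : ∑ j ∈ Finset.range k, ‖c j‖ ^ 2 * (C * ‖Fv U u n j‖ ^ 2 + (σ + (1 / 2) ^ k)) =
          (∑ j ∈ Finset.range k, ‖c j‖ ^ 2 * (C * ‖Fv U u n j‖ ^ 2 + σ)) +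
            (1 / 2) ^ k * ∑ j ∈ Finset.range k, ‖c j‖ ^ 2 := by
        rw [Finset.mul_sum, ← Finset.sum_add_distrib]
        exact Finset.sum_congr rfl fun j _ => by ring
      rw [e1]
      have e2 : 0 ≤ ‖c k‖ ^ 2 * σ := by positivity
      nlinarith
  have hσ2 : ∀ K, ∑ i ∈ Finset.range K, (1 / 2 : ℝ) ^ i ≤ 2 := by
    intro K
    have := Summable.sum_le_tsum (f := fun i => (1 / 2 : ℝ) ^ i) (Finset.range K)
      (fun i _ => by positivity) summable_geometric_two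
    rwa [tsum_geometric_two] at this
  have hW' : ∀ (c : ℕ → ℂ) (K : ℕ), ‖∑ j ∈ Finset.range K, c j • Wv U u n j‖ ^ 2 ≤
      (3 * C + 2) * ∑ j ∈ Finset.range K, ‖c j‖ ^ 2 * (j + 1) := by
    intro c K
    refine (hW c K).trans ?_
    rw [Finset.mul_sum]
    refine Finset.sum_le_sum fun j _ => ?_
    have h1 : C * ‖Fv U u n j‖ ^ 2 ≤ C * (3 * j) := mul_le_mul_of_nonneg_left (hF j) hC
    have h2 : C * ‖Fv U u n j‖ ^ 2 + ∑ i ∈ Finset.range K, (1 / 2 : ℝ) ^ i ≤ (3 * C + 2) * (j + 1) := by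
      have := hσ2 K
      have hj : (0 : ℝ) ≤ j := Nat.cast_nonneg j
      nlinarith
    calc ‖c j‖ ^ 2 * (C * ‖Fv U u n j‖ ^ 2 + ∑ i ∈ Finset.range K, (1 / 2 : ℝ) ^ i)
        ≤ ‖c j‖ ^ 2 * ((3 * C + 2) * (j + 1)) := mul_le_mul_of_nonneg_left h2 (by positivity)
      _ = _ := by ring
  -- the square-summability of functionals along W
  have hsum : ∀ Λ : StrongDual ℂ X, Summable fun k : ℕ => ‖Λ (Θ (Wv U u n k))‖ ^ 2 / ((k : ℝ) + 1) := by
    intro Λ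
    set D : ℝ := 3 * C + 2 with hD
    have hDpos : 0 < D := by positivity
    set M : ℝ := ‖Λ‖ * ‖Θ‖ with hM
    refine summable_of_sum_range_le (c := M ^ 2 * D) (fun k => by positivity) (fun K => ?_)
    set s : ℝ := ∑ i ∈ Finset.range K, ‖Λ (Θ (Wv U u n i))‖ ^ 2 / ((i : ℝ) + 1) with hs
    have hs0 : 0 ≤ s := Finset.sum_nonneg fun i _ => by positivity
    let c : ℕ → ℂ := fun j => (starRingEnd ℂ) (Λ (Θ (Wv U u n j))) / ((j : ℂ) + 1)
    have hc : ∀ j : ℕ, ‖c j‖ ^ 2 * ((j : ℝ) + 1) = ‖Λ (Θ (Wv U u n j))‖ ^ 2 / ((j : ℝ) + 1) := by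
      intro j
      have : ‖((j : ℂ) + 1)‖ = (j : ℝ) + 1 := by
        have : ((j : ℂ) + 1) = (((j : ℝ) + 1 : ℝ) : ℂ) := by push_cast; rfl
        rw [this, Complex.norm_real, Real.norm_of_nonneg (by positivity)]
      simp only [c]
      rw [norm_div, this, RCLike.norm_conj, div_pow]
      field_simp
    have h1 : Λ (Θ (∑ j ∈ Finset.range K, c j • Wv U u n j)) = (s : ℂ) := by
      rw [map_sum, map_sum, hs]
      push_cast
      refine Finset.sum_congr rfl fun j _ => ?_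
      rw [map_smul, map_smul, smul_eq_mul]
      simp only [c]
      rw [div_mul_eq_mul_div, mul_comm, Complex.mul_conj, Complex.normSq_eq_norm_sq]
      push_cast
      rfl
    have h2 : s ≤ M * ‖∑ j ∈ Finset.range K, c j • Wv U u n j‖ := by
      have : ‖(s : ℂ)‖ = s := by rw [Complex.norm_real, Real.norm_of_nonneg hs0]
      rw [← this, ← h1]
      calc _ ≤ ‖Λ‖ * ‖Θ (∑ j ∈ Finset.range K, c j • Wv U u n j)‖ := Λ.le_opNorm _
        _ ≤ ‖Λ‖ * (‖Θ‖ * ‖∑ j ∈ Finset.range K, c j • Wv U u n j‖) := by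
            gcongr; exact Θ.le_opNorm _
        _ = _ := by rw [hM]; ring
    have h3 : ‖∑ j ∈ Finset.range K, c j • Wv U u n j‖ ^ 2 ≤ D * s := by
      refine (hW' c K).trans ?_
      rw [hs]
      gcongr with j hj
      exact (hc j).le
    have h4 : s ^ 2 ≤ M ^ 2 * (D * s) := by
      calc s ^ 2 ≤ (M * ‖∑ j ∈ Finset.range K, c j • Wv U u n j‖) ^ 2 := by gcongr
        _ = M ^ 2 * ‖∑ j ∈ Finset.range K, c j • Wv U u n j‖ ^ 2 := by ring
        _ ≤ _ := by gcongr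
    rcases hs0.eq_or_lt with h0 | hpos
    · rw [← h0]; positivity
    · have : s * s ≤ (M ^ 2 * D) * s := by nlinarith
      exact le_of_mul_le_mul_right this hpos
  -- the vector
  have hTn : ∀ (m : ℕ) (y : Y), (T ^ m) (Θ y) = Θ ((U ^ (-(m : ℤ))) y) := by
    intro m
    induction m with
    | zero => intro y; simp
    | succ m ih =>
      intro y
      rw [pow_succ, ContinuousLinearMap.mul_apply, hT, ih, ← zpow_apply_add]
      congr 2
      push_cast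
      ring_nf
  let g : ℕ → X := fun k => Θ ((U ^ (n k : ℤ)) (u k))
  have hg : Summable g := by
    refine Summable.of_norm_bounded (g := fun k => (1 / 2 : ℝ) ^ k) summable_geometric_two
      (fun k => (hn k).2.2.2)
  let x : X := ∑' k, g k
  have hx : ∀ k, ‖(T ^ (n k)) x - Θ (Wv U u n k) - Θ (u k)‖ ≤ (1 / 2 : ℝ) ^ k := by
    intro k
    have e1 : (T ^ (n k)) x = ∑' j, (T ^ (n k)) (g j) := ContinuousLinearMap.map_tsum _ hg
    have hgs : Summable (fun j => (T ^ (n k)) (g j)) := hg.mapL _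
    have e2 : ∀ j, (T ^ (n k)) (g j) = Θ ((U ^ ((n j : ℤ) - n k)) (u j)) := by
      intro j
      simp only [g]
      rw [hTn, ← zpow_apply_add]
      congr 2
      ring_nf
    have e3 := hgs.sum_add_tsum_nat_add (k + 1)
    rw [Finset.sum_range_succ] at e3
    have e4 : (T ^ (n k)) (g k) = Θ (u k) := by rw [e2]; simp
    have e5 : ∑ j ∈ Finset.range k, (T ^ (n k)) (g j) = Θ (Wv U u n k) := by
      unfold Wv Fv
      rw [map_sum, map_sum]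
      refine Finset.sum_congr rfl fun j _ => ?_
      rw [e2, ← zpow_apply_add]
      congr 2
      ring_nf
    have e6 : (T ^ (n k)) x - Θ (Wv U u n k) - Θ (u k) = ∑' i, (T ^ (n k)) (g (i + (k + 1))) := by
      rw [e1, ← e3, e4, e5]; abel
    rw [e6]
    have hb : ∀ i, ‖(T ^ (n k)) (g (i + (k + 1)))‖ ≤ (1 / 2 : ℝ) ^ (k + 1) * (1 / 2 : ℝ) ^ i := by
      intro i
      rw [e2, ← pow_add, add_comm (k + 1) i]
      exact (hn (i + (k + 1))).2.2.1 k (by omega)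
    have hs : HasSum (fun i => (1 / 2 : ℝ) ^ (k + 1) * (1 / 2 : ℝ) ^ i) ((1 / 2 : ℝ) ^ (k + 1) * 2) :=
      hasSum_geometric_two.mul_left _
    refine (tsum_of_norm_bounded hs hb).trans ?_
    rw [pow_succ]
    linarith
  refine ⟨x, ?_⟩
  have hrange : (Set.range fun n : ℕ => toWeakSpace ℂ X ((T ^ n) x)) =
      (toWeakSpace ℂ X) '' (Set.range fun n : ℕ => (T ^ n) x) := by
    rw [← Set.range_comp]; rfl
  rw [hrange]
  refine dense_toWeakSpace_of_forall _ ?_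
  intro z s ε hε
  -- total norm of the functionals
  set N : ℝ := 1 + ∑ Λ ∈ s, ‖Λ‖ with hN
  have hNpos : 0 < N := by
    have : 0 ≤ ∑ Λ ∈ s, ‖Λ‖ := Finset.sum_nonneg fun _ _ => norm_nonneg _
    linarith
  have hΛN : ∀ Λ ∈ s, ‖Λ‖ ≤ N := by
    intro Λ hΛ
    have := Finset.single_le_sum (f := fun Λ : StrongDual ℂ X => ‖Λ‖) (fun _ _ => norm_nonneg _) hΛ
    linarith
  obtain ⟨t, ht⟩ : ∃ t, ‖Θ (v t) - z‖ < ε / (3 * N) := by
    have := hvd.exists_dist_lt z (ε := ε / (3 * N)) (by positivity)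
    obtain ⟨t, ht⟩ := this
    refine ⟨t, ?_⟩
    rwa [dist_comm, dist_eq_norm] at ht
  -- indices with valuation t
  let φ : ℕ → ℕ := fun m => 2 ^ t * (2 * m + 1) - 1
  have hφ1 : ∀ m, φ m + 1 = 2 ^ t * (2 * m + 1) := fun m => by
    have : 0 < 2 ^ t * (2 * m + 1) := by positivity
    simp only [φ]; omega
  have hφv : ∀ m, u (φ m) = v t := by
    intro m
    simp only [u]
    rw [hφ1, padicValNat.mul (by positivity) (by omega), padicValNat.prime_pow,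
      padicValNat.eq_zero_of_not_dvd (by omega), add_zero]
  have hφinj : Function.Injective φ := by
    intro a b hab
    have h1 := hφ1 a
    have h2 := hφ1 b
    rw [hab] at h1
    rw [h1] at h2
    have := Nat.eq_of_mul_eq_mul_left (by positivity : 0 < 2 ^ t) h2
    omega
  have hφge : ∀ m, m ≤ φ m := by
    intro m
    have h1 := hφ1 m
    have h2 : 1 * (2 * m + 1) ≤ 2 ^ t * (2 * m + 1) :=
      Nat.mul_le_mul_right _ (Nat.one_le_two_pow)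
    omega
  -- small tail
  obtain ⟨m0, hm0⟩ : ∃ m0 : ℕ, ∀ m ≥ m0, (1 / 2 : ℝ) ^ m < ε / (3 * N) := by
    have := (tendsto_pow_atTop_nhds_zero_of_lt_one (r := (1 / 2 : ℝ)) (by norm_num)
      (by norm_num)).eventually_lt_const (show (0:ℝ) < ε / (3 * N) by positivity)
    exact eventually_atTop.mp this
  -- find a good index
  obtain ⟨m, hm, hgood⟩ : ∃ m ≥ m0, ∀ Λ ∈ s, ‖Λ (Θ (Wv U u n (φ m)))‖ < ε / 3 := by
    by_contra hcon
    push Not at hcon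
    have hsumm : Summable (fun k : ℕ => ∑ Λ ∈ s, ‖Λ (Θ (Wv U u n k))‖ ^ 2 / ((k : ℝ) + 1)) :=
      summable_sum fun Λ _ => hsum Λ
    have h1 := hsumm.comp_injective hφinj
    have h2 := (summable_nat_add_iff m0).mpr h1
    have h3 : Summable (fun m : ℕ => (ε / 3) ^ 2 / ((2 ^ t * (2 * (m + m0) + 1) : ℕ) : ℝ)) := by
      refine Summable.of_nonneg_of_le (fun m => by positivity) (fun m => ?_) h2
      obtain ⟨Λ, hΛ, hΛ'⟩ := hcon (m + m0) (by omega)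
      have e0 : ((φ (m + m0) : ℝ) + 1) = ((2 ^ t * (2 * (m + m0) + 1) : ℕ) : ℝ) := by
        rw [← hφ1]; push_cast; ring
      simp only [Function.comp_apply]
      rw [← Finset.sum_div, e0]
      gcongr
      calc (ε / 3) ^ 2 ≤ ‖Λ (Θ (Wv U u n (φ (m + m0))))‖ ^ 2 := by gcongr
        _ ≤ _ := Finset.single_le_sum (f := fun Λ : StrongDual ℂ X =>
            ‖Λ (Θ (Wv U u n (φ (m + m0))))‖ ^ 2) (fun _ _ => by positivity) hΛ
    have h4 := (summable_nat_add_iff (f := fun m : ℕ =>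
      (ε / 3) ^ 2 / ((2 ^ t * (2 * m + 1) : ℕ) : ℝ)) m0).mp h3
    exact not_summable_odd t ((ε / 3) ^ 2) (by positivity) h4
  refine ⟨(T ^ (n (φ m))) x, ⟨_, rfl⟩, fun Λ hΛ => ?_⟩
  have hR := hx (φ m)
  have hR' : ‖(T ^ (n (φ m))) x - Θ (Wv U u n (φ m)) - Θ (u (φ m))‖ < ε / (3 * N) :=
    lt_of_le_of_lt hR (hm0 _ (hm.trans (hφge m)))
  have e1 : Λ ((T ^ (n (φ m))) x) - Λ z =
      Λ ((T ^ (n (φ m))) x - Θ (Wv U u n (φ m)) - Θ (u (φ m))) + Λ (Θ (Wv U u n (φ m)))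
        + Λ (Θ (v t) - z) := by
    rw [hφv]
    simp only [map_sub]
    ring
  rw [e1]
  have b1 : ‖Λ ((T ^ (n (φ m))) x - Θ (Wv U u n (φ m)) - Θ (u (φ m)))‖ < ε / 3 := by
    calc _ ≤ ‖Λ‖ * ‖(T ^ (n (φ m))) x - Θ (Wv U u n (φ m)) - Θ (u (φ m))‖ := Λ.le_opNorm _
      _ ≤ N * ‖(T ^ (n (φ m))) x - Θ (Wv U u n (φ m)) - Θ (u (φ m))‖ := by
          gcongr; exact hΛN Λ hΛ
      _ < N * (ε / (3 * N)) := by gcongr
      _ = ε / 3 := by field_simp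
  have b3 : ‖Λ (Θ (v t) - z)‖ < ε / 3 := by
    calc _ ≤ ‖Λ‖ * ‖Θ (v t) - z‖ := Λ.le_opNorm _
      _ ≤ N * ‖Θ (v t) - z‖ := by gcongr; exact hΛN Λ hΛ
      _ < N * (ε / (3 * N)) := by gcongr
      _ = ε / 3 := by field_simp
  have b2 := hgood Λ hΛ
  calc _ ≤ ‖Λ ((T ^ (n (φ m))) x - Θ (Wv U u n (φ m)) - Θ (u (φ m)))‖
        + ‖Λ (Θ (Wv U u n (φ m)))‖ + ‖Λ (Θ (v t) - z)‖ := norm_add₃_le
    _ < ε := by linarith

end Main

end Pool.Agent.H91
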