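import Mathlib
import Pool.Agent.H91.WHC
import Pool.Agent.H91.Model

/-!
The coanalytic Toeplitz operator with symbol `g` on `H^4` is weakly hypercyclic.
-/

open MeasureTheory AddCircle Filter Topology Metric
open scoped ENNReal ComplexConjugate

namespace Pool.Agent.H91

noncomputable section

/-- The Hardy space `H^p` as a submodule of `Lp`. -/
def hardyL (p : ℝ≥0∞) [Fact (1 ≤ p)] : Submodule ℂ (Lp ℂ p μc) where
  carrier := {F | ∀ n : ℤ, n < 0 → fourierCoeff (T := 2 * Real.pi) F n = 0}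
  add_mem' := fun {f g} hf hg n hn => by
    have h1 : coeffL p n f = 0 := hf n hn
    have h2 : coeffL p n g = 0 := hg n hn
    change coeffL p n (f + g) = 0
    rw [map_add, h1, h2, add_zero]
  zero_mem' := fun n _ => by
    change coeffL p n 0 = 0
    exact map_zero _
  smul_mem' := fun c f hf n hn => by
    have h1 : coeffL p n f = 0 := hf n hn
    change coeffL p n (c • f) = 0
    rw [map_smul, h1, smul_zero]

theorem mem_hardy_iff (p : ℝ≥0∞) [Fact (1 ≤ p)] (F : Lp ℂ p μc) :
    F ∈ hardyL p ↔ ∀ n : ℤ, n < 0 → coeffL p n F = 0 := Iff.rfl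

theorem isClosed_hardy (p : ℝ≥0∞) [Fact (1 ≤ p)] : IsClosed (hardyL p : Set (Lp ℂ p μc)) := by
  have : (hardyL p : Set (Lp ℂ p μc)) = ⋂ n : ℤ, ⋂ _ : n < 0, {F | coeffL p n F = 0} := by
    ext F
    simp only [SetLike.mem_coe, mem_hardy_iff, Set.mem_iInter, Set.mem_ofPred_eq]
  rw [this]
  refine isClosed_iInter fun n => isClosed_iInter fun _ => ?_
  exact isClosed_eq (coeffL p n).continuous continuous_const

theorem Pplus_mem_hardy (f : Lp ℂ 4 μc) : Pplus f ∈ hardyL 4 := by
  rw [mem_hardy_iff]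
  intro n hn
  rw [coeffL_Pplus, if_neg (not_le.mpr hn)]

theorem Pplus_of_mem_hardy {f : Lp ℂ 4 μc} (hf : f ∈ hardyL 4) : Pplus f = f := by
  apply Lp4_ext
  intro n
  rw [coeffL_Pplus]
  split_ifs with h
  · rfl
  · exact (hf n (not_le.mp h)).symm

/-- The conjugate of an integer power of the symbol on the circle. -/
def cg (n : ℤ) (t : Circ) : ℂ := conj (gfun (ζ t)) ^ n

theorem measurable_cg (n : ℤ) : Measurable (cg n) := by
  unfold cg
  have h : Measurable fun t => conj (gfun (ζ t)) :=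
    Complex.continuous_conj.measurable.comp measurable_gfun_ζ
  cases n with
  | ofNat n => simpa using h.pow_const n
  | negSucc n => simpa [zpow_negSucc] using (h.pow_const (n + 1))

theorem norm_cg (n : ℤ) (t : Circ) : ‖cg n t‖ = ‖gfun (ζ t)‖ ^ n := by
  unfold cg
  rw [norm_zpow, RCLike.norm_conj]

theorem bddMeas_cg (n : ℤ) : BddMeas (cg n) := by
  refine ⟨measurable_cg n, Real.exp 1 ^ |n|, fun t => ?_⟩
  rw [norm_cg]
  have h1 := norm_gfun_ge_one t
  have h2 := norm_gfun_le_exp t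
  calc ‖gfun (ζ t)‖ ^ n ≤ ‖gfun (ζ t)‖ ^ |n| := zpow_le_zpow_right₀ h1 (le_abs_self n)
    _ ≤ Real.exp 1 ^ |n| := zpow_le_zpow_left₀ (abs_nonneg n) (norm_nonneg _) h2

theorem cg_ne_zero (n : ℤ) (t : Circ) : cg n t ≠ 0 := by
  unfold cg
  refine zpow_ne_zero n ?_
  rw [Ne, map_eq_zero]
  exact gfun_ne_zero _

/-- Fourier coefficients of `g^n` on the circle. -/
theorem integral_g_zpow_pos (n : ℤ) (m : ℕ) :
    ∫ t, gfun (ζ t) ^ n * ζ t ^ (m : ℤ) ∂μc = if m = 0 then gfun 0 ^ n else 0 := by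
  have hd : DifferentiableOn ℂ (fun z => gfun z ^ n) (ball 0 1) := by
    intro z hz
    exact ((differentiableOn_gfun z hz).zpow (Or.inl (gfun_ne_zero z)))
  have hbd : ∀ z ∈ ball (0 : ℂ) 1, ‖gfun z ^ n‖ ≤ Real.exp 1 ^ |n| := by
    intro z hz
    rw [norm_zpow]
    have h1 := one_lt_norm_gfun hz
    have h2 := norm_gfun_lt hz
    calc ‖gfun z‖ ^ n ≤ ‖gfun z‖ ^ |n| := zpow_le_zpow_right₀ h1.le (le_abs_self n)
      _ ≤ Real.exp 1 ^ |n| := zpow_le_zpow_left₀ (abs_nonneg n) (norm_nonneg _) h2.le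
  refine integral_boundary_pos hd _ hbd (fun t => gfun (ζ t) ^ n) ?_ m
  filter_upwards [gfun_radial] with t ht
  exact ht.zpow₀ n (Or.inl (gfun_ne_zero _))

theorem integrable_g_zpow (n m : ℤ) : Integrable (fun t => gfun (ζ t) ^ n * ζ t ^ m) μc := by
  refine Integrable.mono' (integrable_const (Real.exp 1 ^ |n|)) ?_ (ae_of_all _ fun t => ?_)
  · refine AEStronglyMeasurable.mul ?_
      (continuous_ζ.zpow₀ m fun t => Or.inl (ζ_ne_zero t)).aestronglyMeasurable
    refine Measurable.aestronglyMeasurable ?_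
    cases n with
    | ofNat n => simpa using measurable_gfun_ζ.pow_const n
    | negSucc n => simpa [zpow_negSucc] using (measurable_gfun_ζ.pow_const (n + 1))
  · rw [norm_mul, norm_zpow, norm_zpow, norm_ζ, one_zpow, mul_one]
    have h1 := norm_gfun_ge_one t
    have h2 := norm_gfun_le_exp t
    calc ‖gfun (ζ t)‖ ^ n ≤ ‖gfun (ζ t)‖ ^ |n| := zpow_le_zpow_right₀ h1 (le_abs_self n)
      _ ≤ Real.exp 1 ^ |n| := zpow_le_zpow_left₀ (abs_nonneg n) (norm_nonneg _) h2

/-- Fourier coefficients of `conj(g)^n e_k`. -/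
theorem coeffL_cg_fourier (n k j : ℤ) :
    coeffL 4 j (mulL (cg n) (fourierLp 4 k)) = conj (∫ t, gfun (ζ t) ^ n * ζ t ^ (j - k) ∂μc) := by
  rw [coeffL_apply, fourierCoeff_congr_ae (coe_mulL (bddMeas_cg n) _)]
  unfold fourierCoeff
  rw [← integral_conj]
  refine integral_congr_ae ?_
  filter_upwards [coeFn_fourierLp (T := 2 * Real.pi) 4 k] with t ht
  rw [ht, smul_eq_mul, fourier_eq, fourier_eq]
  unfold cg
  have h1 : conj (ζ t) = (ζ t)⁻¹ := by
    rw [Complex.inv_def, Complex.normSq_eq_norm_sq, norm_ζ]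
    simp
  simp only [map_mul, map_zpow₀, h1]
  have h2 := ζ_ne_zero t
  rw [inv_zpow', neg_sub, zpow_sub₀ h2, zpow_neg]
  field_simp

theorem coeffL_cg_fourier_gt (n : ℤ) {k j : ℤ} (h : k < j) :
    coeffL 4 j (mulL (cg n) (fourierLp 4 k)) = 0 := by
  rw [coeffL_cg_fourier]
  obtain ⟨m, hm⟩ : ∃ m : ℕ, j - k = m := ⟨(j - k).toNat, by omega⟩
  rw [hm, integral_g_zpow_pos, if_neg (by omega), map_zero]

theorem coeffL_cg_fourier_self (n k : ℤ) :
    coeffL 4 k (mulL (cg n) (fourierLp 4 k)) = conj (gfun 0) ^ n := by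
  rw [coeffL_cg_fourier, sub_self]
  have := integral_g_zpow_pos n 0
  rw [Nat.cast_zero] at this
  rw [this, if_pos rfl, map_zpow₀]

/-- `P(conj(g)^n (f - P f)) = 0`. -/
theorem Pplus_cg_sub (n : ℤ) (f : Lp ℂ 4 μc) :
    Pplus (mulL (cg n) (f - Pplus f)) = 0 := by
  have hclosed : IsClosed {f : Lp ℂ 4 μc | Pplus (mulL (cg n) (f - Pplus f)) = 0} := by
    apply isClosed_eq
    · fun_prop
    · exact continuous_const
  refine denseRange_tL.induction_on (p := fun f => Pplus (mulL (cg n) (f - Pplus f)) = 0) f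
    hclosed ?_
  intro a
  let L : Lp ℂ 4 μc →ₗ[ℂ] Lp ℂ 4 μc := (Pplus.comp ((mulL (cg n)).comp
    (ContinuousLinearMap.id ℂ _ - Pplus))).toLinearMap
  have hL : ∀ f, L f = Pplus (mulL (cg n) (f - Pplus f)) := fun f => rfl
  rw [← hL]
  have hk : ∀ k : ℤ, L (fourierLp 4 k) = 0 := by
    intro k
    rw [hL]
    by_cases hk : 0 ≤ k
    · have h1 : Pplus (fourierLp 4 k) = fourierLp 4 k := by
        apply Pplus_of_mem_hardy
        intro m hm
        change coeffL 4 m _ = 0
        rw [coeffL_fourierLp, if_neg (by omega)]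
      rw [h1, sub_self, map_zero, map_zero]
    · have h1 : Pplus (fourierLp 4 k) = 0 := by
        apply Lp4_ext
        intro m
        rw [coeffL_Pplus, coeffL_fourierLp, map_zero]
        split_ifs <;> first | rfl | omega
      rw [h1, sub_zero]
      apply Lp4_ext
      intro m
      rw [coeffL_Pplus, map_zero]
      split_ifs with hm
      · exact coeffL_cg_fourier_gt n (by omega)
      · rfl
  unfold tL
  rw [Finsupp.linearCombination_apply, Finsupp.sum, map_sum]
  refine Finset.sum_eq_zero fun k _ => ?_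
  rw [map_smul, hk, smul_zero]

theorem Pplus_cg_Pplus (n : ℤ) (f : Lp ℂ 4 μc) :
    Pplus (mulL (cg n) (Pplus f)) = Pplus (mulL (cg n) f) := by
  have := Pplus_cg_sub n f
  rw [map_sub, map_sub, sub_eq_zero] at this
  exact this.symm

/-- The operator `T_g^*` on `H^4`. -/
def Tg : hardyL 4 →L[ℂ] hardyL 4 :=
  ((Pplus.comp (mulL (cg 1))).comp (hardyL 4).subtypeL).codRestrict (hardyL 4)
    (fun _ => Pplus_mem_hardy _)

theorem coe_Tg (f : hardyL 4) : ((Tg f : hardyL 4) : Lp ℂ 4 μc) = Pplus (mulL (cg 1) f) := rfl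

/-- The indicator function of the upper half circle. -/
def chi : Circ → ℂ := Eup.indicator (fun _ => 1)

/-- The indicator function of the lower half circle. -/
def chi' : Circ → ℂ := Elo.indicator (fun _ => 1)

theorem bddMeas_chi : BddMeas chi := by
  refine ⟨measurable_const.indicator measurableSet_Eup, 1, fun t => ?_⟩
  unfold chi
  refine (norm_indicator_le_norm_self _ _).trans ?_
  simp

theorem bddMeas_chi' : BddMeas chi' := by
  refine ⟨measurable_const.indicator measurableSet_Elo, 1, fun t => ?_⟩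
  unfold chi'
  refine (norm_indicator_le_norm_self _ _).trans ?_
  simp

/-- The intertwining map `u ↦ P(1_E u)` into `H^4`. -/
def Theta : Lp ℂ 4 μc →L[ℂ] hardyL 4 :=
  (Pplus.comp (mulL chi)).codRestrict (hardyL 4) (fun _ => Pplus_mem_hardy _)

theorem coe_Theta (u : Lp ℂ 4 μc) : ((Theta u : hardyL 4) : Lp ℂ 4 μc) = Pplus (mulL chi u) := rfl

theorem chi_mul_hU_zpow (n : ℤ) (t : Circ) : chi t * hU t ^ n = cg (-n) t * chi t := by
  unfold chi
  by_cases ht : t ∈ Eup
  · rw [Set.indicator_of_mem ht, one_mul, mul_one]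
    unfold cg
    rw [← hU_up ht, conj_hU, inv_zpow', neg_neg]
  · rw [Set.indicator_of_notMem ht, zero_mul, mul_zero]

theorem Theta_zpow (n : ℤ) (u : Lp ℂ 4 μc) :
    ((Theta ((mulU hU measurable_hU norm_hU ^ n) u) : hardyL 4) : Lp ℂ 4 μc) =
      Pplus (mulL (cg (-n)) (Theta u : hardyL 4)) := by
  rw [coe_Theta, coe_Theta, Pplus_cg_Pplus, mulU_zpow,
    mulL_mulL bddMeas_chi (bddMeas_zpow measurable_hU norm_hU n),
    mulL_mulL (bddMeas_cg _) bddMeas_chi]
  congr 2
  refine congrArg _ ?_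
  funext t
  exact chi_mul_hU_zpow n t

theorem intertwine (u : Lp ℂ 4 μc) :
    Tg (Theta u) = Theta ((mulU hU measurable_hU norm_hU ^ (-1 : ℤ)) u) := by
  apply Subtype.ext
  rw [Theta_zpow, coe_Tg, neg_neg]

/-- Coefficients of `conj(g)^{-n} e_k` tend to zero. -/
theorem tendsto_coeff (j k : ℤ) :
    Tendsto (fun n : ℕ => coeffL 4 j (mulL (cg (-(n : ℤ))) (fourierLp 4 k))) atTop (𝓝 0) := by
  have h := tendsto_pow_boundary (F := fun z => (gfun z)⁻¹)
    (differentiableOn_gfun.inv fun z _ => gfun_ne_zero z)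
    (fun z hz => by
      rw [norm_inv]
      exact inv_lt_one_of_one_lt₀ (one_lt_norm_gfun hz))
    measurable_gfun_ζ.inv
    (fun t => by
      rw [norm_inv]
      exact inv_le_one_of_one_le₀ (norm_gfun_ge_one t))
    (by
      filter_upwards [gfun_radial] with t ht
      exact ht.inv₀ (gfun_ne_zero _))
    (fun t => ζ t ^ (j - k))
    (integrable_cont _ (continuous_ζ.zpow₀ _ fun t => Or.inl (ζ_ne_zero t)))
  have h4 := (Complex.continuous_conj.tendsto 0).comp h
  rw [map_zero] at h4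
  refine h4.congr fun n => ?_
  rw [coeffL_cg_fourier]
  simp only [Function.comp_apply]
  congr 1
  refine integral_congr_ae (ae_of_all _ fun t => ?_)
  simp only
  rw [zpow_neg, zpow_natCast, inv_pow]

/-- Expansion of `P(conj(g)^n e_k)` for `k ≥ 0`. -/
theorem Pplus_cg_fourier (n : ℤ) (k : ℕ) :
    Pplus (mulL (cg n) (fourierLp 4 (k : ℤ))) =
      ∑ i ∈ Finset.range (k + 1),
        coeffL 4 (i : ℤ) (mulL (cg n) (fourierLp 4 (k : ℤ))) • fourierLp (T := 2 * Real.pi) 4 (i : ℤ) := by
  apply Lp4_ext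
  intro j
  rw [coeffL_Pplus, map_sum]
  simp only [map_smul, coeffL_fourierLp, smul_eq_mul, mul_ite, mul_one, mul_zero]
  by_cases hj : 0 ≤ j
  · obtain ⟨m, rfl⟩ : ∃ m : ℕ, j = m := ⟨j.toNat, by omega⟩
    rw [if_pos hj]
    by_cases hm : m ∈ Finset.range (k + 1)
    · rw [Finset.sum_eq_single m]
      · simp
      · intro b _ hb
        rw [if_neg (by exact_mod_cast hb)]
      · intro h; exact absurd hm h
    · rw [Finset.sum_eq_zero]
      · refine coeffL_cg_fourier_gt n ?_
        rw [Finset.mem_range] at hm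
        omega
      · intro b hb
        rw [if_neg]
        intro h
        apply hm
        have : b = m := by exact_mod_cast h
        rwa [← this]
  · rw [if_neg hj]
    symm
    refine Finset.sum_eq_zero fun b _ => ?_
    rw [if_neg (by omega)]

/-- `P(conj(g)^{-n} f) → 0` for `f` in the range of `P`. -/
theorem tendsto_Pplus_cg (f : Lp ℂ 4 μc) :
    Tendsto (fun n : ℕ => Pplus (mulL (cg (-(n : ℤ))) (Pplus f))) atTop (𝓝 0) := by
  -- uniform bound
  have hbound : ∀ (n : ℕ) (f : Lp ℂ 4 μc), ‖Pplus (mulL (cg (-(n : ℤ))) (Pplus f))‖ ≤ 9 * ‖f‖ := by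
    intro n f
    refine (norm_Pplus_le _).trans ?_
    have h1 : ‖mulL (cg (-(n : ℤ))) (Pplus f)‖ ≤ 1 * ‖Pplus f‖ := by
      refine norm_mulL_le (bddMeas_cg _) (fun t => ?_) _
      rw [norm_cg, zpow_neg, zpow_natCast]
      exact inv_le_one_of_one_le₀ (one_le_pow₀ (norm_gfun_ge_one t))
    have h2 := norm_Pplus_le f
    linarith
  -- the case of characters
  have hk : ∀ k : ℤ, Tendsto (fun n : ℕ => Pplus (mulL (cg (-(n : ℤ))) (Pplus (fourierLp 4 k))))
      atTop (𝓝 0) := by
    intro k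
    by_cases hk : 0 ≤ k
    · obtain ⟨m, rfl⟩ : ∃ m : ℕ, k = m := ⟨k.toNat, by omega⟩
      have h1 : Pplus (fourierLp 4 (m : ℤ)) = fourierLp 4 (m : ℤ) := by
        apply Pplus_of_mem_hardy
        intro j hj
        change coeffL 4 j _ = 0
        rw [coeffL_fourierLp, if_neg (by omega)]
      simp_rw [h1, Pplus_cg_fourier]
      have : (0 : Lp ℂ 4 μc) = ∑ i ∈ Finset.range (m + 1), (0 : ℂ) •
          fourierLp (T := 2 * Real.pi) 4 (i : ℤ) := by simp
      rw [this]
      exact tendsto_finsetSum _ fun i _ => (tendsto_coeff i m).smul_const _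
    · have h1 : Pplus (fourierLp 4 k) = 0 := by
        apply Lp4_ext
        intro m
        rw [coeffL_Pplus, coeffL_fourierLp, map_zero]
        split_ifs <;> first | rfl | omega
      simp_rw [h1, map_zero]
      exact tendsto_const_nhds
  -- the case of trigonometric polynomials
  have ha : ∀ a : ℤ →₀ ℂ, Tendsto (fun n : ℕ => Pplus (mulL (cg (-(n : ℤ))) (Pplus (tL a))))
      atTop (𝓝 0) := by
    intro a
    unfold tL
    rw [Finsupp.linearCombination_apply, Finsupp.sum]
    simp_rw [map_sum, map_smul]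
    have : (0 : Lp ℂ 4 μc) = ∑ i ∈ a.support, a i • (0 : Lp ℂ 4 μc) := by simp
    rw [this]
    exact tendsto_finsetSum _ fun i _ => (hk i).const_smul _
  -- density
  rw [Metric.tendsto_atTop]
  intro ε hε
  obtain ⟨a, hfa⟩ := denseRange_tL.exists_dist_lt f (ε := ε / 18) (by positivity)
  obtain ⟨N, hN⟩ := Metric.tendsto_atTop.mp (ha a) (ε / 2) (by positivity)
  refine ⟨N, fun n hn => ?_⟩
  have h1 := hN n hn
  rw [dist_zero_right] at h1 ⊢
  rw [dist_eq_norm] at hfa
  have h2 : Pplus (mulL (cg (-(n : ℤ))) (Pplus f)) =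
      Pplus (mulL (cg (-(n : ℤ))) (Pplus (f - tL a))) +
        Pplus (mulL (cg (-(n : ℤ))) (Pplus (tL a))) := by
    rw [← map_add, ← map_add, ← map_add, sub_add_cancel]
  rw [h2]
  have h3 := hbound n (f - tL a)
  calc _ ≤ ‖Pplus (mulL (cg (-(n : ℤ))) (Pplus (f - tL a)))‖ +
        ‖Pplus (mulL (cg (-(n : ℤ))) (Pplus (tL a)))‖ := norm_add_le _ _
    _ < ε := by linarith

theorem decay (u : Lp ℂ 4 μc) :
    Tendsto (fun n : ℕ => Theta ((mulU hU measurable_hU norm_hU ^ (n : ℤ)) u)) atTop (𝓝 0) := by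
  rw [tendsto_subtype_rng]
  simp_rw [Theta_zpow, coe_Theta]
  exact tendsto_Pplus_cg _

/-- The characters `e_k`, `k ≥ 0`, lie in the closure of the range of `Theta`. -/
theorem fourier_mem_closure (k : ℕ) :
    fourierLp (T := 2 * Real.pi) 4 (k : ℤ) ∈
      (LinearMap.range (Pplus.comp (mulL chi)).toLinearMap).topologicalClosure := by
  set R := (LinearMap.range (Pplus.comp (mulL chi)).toLinearMap).topologicalClosure with hR
  induction k using Nat.strong_induction_on with
  | _ k ih =>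
    -- approximants
    let c : ℕ → ℂ := fun n => conj (gfun 0) ^ (-(n : ℤ))
    have hc0 : ∀ n, c n ≠ 0 := fun n => by
      refine zpow_ne_zero _ ?_
      rw [Ne, map_eq_zero]
      exact gfun_ne_zero _
    let y : ℕ → Lp ℂ 4 μc := fun n => (c n)⁻¹ • (Pplus (mulL chi (mulL (cg (-(n : ℤ))) (fourierLp 4 (k : ℤ))))
      - ∑ i ∈ Finset.range k, coeffL 4 (i : ℤ) (mulL (cg (-(n : ℤ))) (fourierLp 4 (k : ℤ))) •
        fourierLp (T := 2 * Real.pi) 4 (i : ℤ))
    have hy : ∀ n, y n ∈ R := by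
      intro n
      refine Submodule.smul_mem _ _ (Submodule.sub_mem _ ?_ ?_)
      · exact Submodule.le_topologicalClosure _ ⟨_, rfl⟩
      · exact Submodule.sum_mem _ fun i hi => Submodule.smul_mem _ _ (ih i (Finset.mem_range.mp hi))
    have hsplit : ∀ n : ℕ, Pplus (mulL (cg (-(n : ℤ))) (fourierLp 4 (k : ℤ))) =
        Pplus (mulL chi (mulL (cg (-(n : ℤ))) (fourierLp 4 (k : ℤ)))) +
          Pplus (mulL chi' (mulL (cg (-(n : ℤ))) (fourierLp 4 (k : ℤ)))) := by
      intro n
      rw [← map_add]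
      congr 1
      apply Lp.ext
      set v := mulL (cg (-(n : ℤ))) (fourierLp 4 (k : ℤ)) with hv
      filter_upwards [coe_mulL bddMeas_chi v, coe_mulL bddMeas_chi' v,
        Lp.coeFn_add (mulL chi v) (mulL chi' v), ae_up_or_lo] with t h1 h2 h3 h4
      rw [h3, Pi.add_apply, h1, h2]
      unfold chi chi'
      rcases h4 with h4 | h4
      · have h5 : t ∉ Elo := fun h => by
          have h1' : 0 < (ζ t).im := h4
          have h2' : (ζ t).im < 0 := h
          exact lt_asymm h1' h2'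
        rw [Set.indicator_of_mem h4, Set.indicator_of_notMem h5]
        ring
      · have h5 : t ∉ Eup := fun h => by
          have h1' : 0 < (ζ t).im := h
          have h2' : (ζ t).im < 0 := h4
          exact lt_asymm h1' h2'
        rw [Set.indicator_of_mem h4, Set.indicator_of_notMem h5]
        ring
    have hdiff : ∀ n, fourierLp (T := 2 * Real.pi) 4 (k : ℤ) - y n =
        (c n)⁻¹ • Pplus (mulL chi' (mulL (cg (-(n : ℤ))) (fourierLp 4 (k : ℤ)))) := by
      intro n
      have h1 := Pplus_cg_fourier (-(n : ℤ)) k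
      rw [Finset.sum_range_succ, coeffL_cg_fourier_self] at h1
      have h2 : c n • fourierLp (T := 2 * Real.pi) 4 (k : ℤ) =
          Pplus (mulL (cg (-(n : ℤ))) (fourierLp 4 (k : ℤ))) -
          ∑ i ∈ Finset.range k, coeffL 4 (i : ℤ) (mulL (cg (-(n : ℤ))) (fourierLp 4 (k : ℤ))) •
            fourierLp (T := 2 * Real.pi) 4 (i : ℤ) := by
        rw [h1]; simp only [c]; abel
      have h4 : fourierLp (T := 2 * Real.pi) 4 (k : ℤ) - y n = (c n)⁻¹ • (c n •
          fourierLp (T := 2 * Real.pi) 4 (k : ℤ) -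
          (Pplus (mulL chi (mulL (cg (-(n : ℤ))) (fourierLp 4 (k : ℤ)))) -
          ∑ i ∈ Finset.range k, coeffL 4 (i : ℤ) (mulL (cg (-(n : ℤ))) (fourierLp 4 (k : ℤ))) •
            fourierLp (T := 2 * Real.pi) 4 (i : ℤ))) := by
        simp only [y]
        rw [smul_sub (c n)⁻¹ (c n • fourierLp (T := 2 * Real.pi) 4 (k : ℤ)), smul_smul,
          inv_mul_cancel₀ (hc0 n), one_smul]
      rw [h4, h2, hsplit n]
      congr 1
      abel
    have hlim : Tendsto y atTop (𝓝 (fourierLp (T := 2 * Real.pi) 4 (k : ℤ))) := by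
      rw [tendsto_iff_norm_sub_tendsto_zero]
      have hb : ∀ n : ℕ, ‖y n - fourierLp (T := 2 * Real.pi) 4 (k : ℤ)‖ ≤
          3 * ‖fourierLp (T := 2 * Real.pi) 4 (k : ℤ)‖ * (Real.exp (-(1 / 2))) ^ n := by
        intro n
        rw [norm_sub_rev, hdiff n, norm_smul]
        have e1 : ‖(c n)⁻¹‖ = Real.exp (1 / 2) ^ n := by
          simp only [c]
          rw [norm_inv, norm_zpow, RCLike.norm_conj, norm_gfun]
          simp
        have e2 : ‖Pplus (mulL chi' (mulL (cg (-(n : ℤ))) (fourierLp 4 (k : ℤ))))‖ ≤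
            3 * ((Real.exp 1)⁻¹ ^ n * ‖fourierLp (T := 2 * Real.pi) 4 (k : ℤ)‖) := by
          refine (norm_Pplus_le _).trans ?_
          gcongr
          rw [mulL_mulL bddMeas_chi' (bddMeas_cg _)]
          refine norm_mulL_le (bddMeas_chi'.mul (bddMeas_cg _)) (fun t => ?_) _
          rw [norm_mul, norm_cg]
          unfold chi'
          by_cases ht : t ∈ Elo
          · rw [Set.indicator_of_mem ht, norm_gfun_lo ht, zpow_neg, zpow_natCast, inv_pow]
            simp
          · rw [Set.indicator_of_notMem ht]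
            simp
            positivity
        rw [e1]
        calc Real.exp (1 / 2) ^ n * _ ≤ Real.exp (1 / 2) ^ n *
              (3 * ((Real.exp 1)⁻¹ ^ n * ‖fourierLp (T := 2 * Real.pi) 4 (k : ℤ)‖)) := by gcongr
          _ = 3 * ‖fourierLp (T := 2 * Real.pi) 4 (k : ℤ)‖ *
              (Real.exp (1 / 2) * (Real.exp 1)⁻¹) ^ n := by rw [mul_pow]; ring
          _ = _ := by
              congr 2
              rw [← Real.exp_neg, ← Real.exp_add]
              norm_num
      have h0 : Tendsto (fun n : ℕ => 3 * ‖fourierLp (T := 2 * Real.pi) 4 (k : ℤ)‖ *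
          (Real.exp (-(1 / 2))) ^ n) atTop (𝓝 0) := by
        have := (tendsto_pow_atTop_nhds_zero_of_lt_one (Real.exp_pos (-(1 / 2))).le
          (by rw [Real.exp_lt_one_iff]; norm_num)).const_mul
            (3 * ‖fourierLp (T := 2 * Real.pi) 4 (k : ℤ)‖)
        rwa [mul_zero] at this
      exact squeeze_zero (fun n => norm_nonneg _) hb h0
    exact (Submodule.isClosed_topologicalClosure _).mem_of_tendsto hlim (Eventually.of_forall hy)

theorem denseRange_Theta : DenseRange Theta := by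
  have h1 : ∀ f : Lp ℂ 4 μc, Pplus f ∈
      (LinearMap.range (Pplus.comp (mulL chi)).toLinearMap).topologicalClosure := by
    intro f
    set R := (LinearMap.range (Pplus.comp (mulL chi)).toLinearMap).topologicalClosure with hR
    have hclosed : IsClosed {f : Lp ℂ 4 μc | Pplus f ∈ R} :=
      (Submodule.isClosed_topologicalClosure _).preimage Pplus.continuous
    refine denseRange_tL.induction_on (p := fun f => Pplus f ∈ R) f hclosed ?_
    intro a
    unfold tL
    rw [Finsupp.linearCombination_apply, Finsupp.sum, map_sum]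
    refine Submodule.sum_mem _ fun k _ => ?_
    rw [map_smul]
    refine Submodule.smul_mem _ _ ?_
    by_cases hk : 0 ≤ k
    · obtain ⟨m, rfl⟩ : ∃ m : ℕ, k = m := ⟨k.toNat, by omega⟩
      have h2 : Pplus (fourierLp 4 (m : ℤ)) = fourierLp 4 (m : ℤ) := by
        apply Pplus_of_mem_hardy
        intro j hj
        change coeffL 4 j _ = 0
        rw [coeffL_fourierLp, if_neg (by omega)]
      rw [h2]
      exact fourier_mem_closure m
    · have h2 : Pplus (fourierLp 4 k) = 0 := by
        apply Lp4_ext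
        intro m
        rw [coeffL_Pplus, coeffL_fourierLp, map_zero]
        split_ifs <;> first | rfl | omega
      rw [h2]
      exact Submodule.zero_mem _
  intro x
  rw [closure_subtype]
  have h2 := h1 x
  rw [Pplus_of_mem_hardy x.2] at h2
  rw [← SetLike.mem_coe, Submodule.topologicalClosure_coe] at h2
  refine closure_mono ?_ h2
  rintro _ ⟨u, rfl⟩
  exact ⟨Theta u, ⟨u, rfl⟩, rfl⟩

instance completeSpace_hardy4 : CompleteSpace (hardyL 4) :=
  (isClosed_hardy 4).completeSpace_coe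

theorem separable_L4 : TopologicalSpace.SeparableSpace (Lp ℂ 4 μc) := by
  have : Fact ((4 : ℝ≥0∞) ≠ ∞) := ⟨by norm_num⟩
  infer_instance

/-- `T_g^*` is weakly hypercyclic on `H^4`. -/
theorem weaklyHypercyclic_Tg :
    ∃ x : hardyL 4, Dense (Set.range fun n : ℕ => toWeakSpace ℂ (hardyL 4) ((Tg ^ n) x)) := by
  have := separable_L4
  have h2 : SecondCountableTopology (Lp ℂ 4 μc) := UniformSpace.secondCountable_of_separable _
  have h3 : TopologicalSpace.SeparableSpace (hardyL 4) := inferInstance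
  exact weaklyHypercyclic_of_intertwine (mulU hU measurable_hU norm_hU) 2 (by norm_num)
    AI_neg AI_pos Theta denseRange_Theta Tg intertwine decay

/-- The operator `T_g^*` on `H^4`. -/
def Tg4 : Hp 4 →L[ℂ] Hp 4 := Tg

theorem isCoanalyticToeplitz_Tg4 : IsCoanalyticToeplitz gfun 4 Tg4 := by
  refine ⟨fun t => gfun (toCircle t : ℂ), gfun_radial, ?_⟩
  intro f n hn
  have h1 := coeffL_Pplus (mulL (cg 1) ((show hardyL 4 from f : hardyL 4) : Lp ℂ 4 μc)) n
  rw [if_pos hn, coeffL_apply, coeffL_apply,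
    fourierCoeff_congr_ae (coe_mulL (bddMeas_cg 1)
      ((show hardyL 4 from f : hardyL 4) : Lp ℂ 4 μc))] at h1
  have h2 : ∀ t : Circ, cg 1 t = conj (gfun (toCircle t : ℂ)) := fun t => by
    unfold cg ζ
    rw [zpow_one]
  simp only [h2] at h1
  exact h1

theorem isWeaklyHypercyclic_Tg4 : IsWeaklyHypercyclic Tg4 := by
  obtain ⟨x, hx⟩ := weaklyHypercyclic_Tg
  have hpow : ∀ (n : ℕ) (y : hardyL 4), (Tg)^[n] y = (Tg ^ n) y := by
    intro n
    induction n with
    | zero => intro y; rfl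
    | succ n ih =>
      intro y
      rw [Function.iterate_succ_apply, pow_succ]
      exact ih _
  refine ⟨x, ?_⟩
  have h : (toWeakSpace ℂ (hardyL 4) '' (Set.range fun n : ℕ => (Tg)^[n] x)) =
      (Set.range fun n : ℕ => toWeakSpace ℂ (hardyL 4) ((Tg ^ n) x)) := by
    rw [← Set.range_comp]
    congr 1
    funext n
    simp only [Function.comp_apply]
    rw [hpow]
  unfold IsWeaklyDense
  rw [← h] at hx
  exact hx

end

end Pool.Agent.H91
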